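import Pool.Agent.W506.PM.GR

/-!
# A graded Clifford algebra with two point modules: presentation
-/

universe u

namespace Pool.Agent.Y586.G2

open Pool.Agent.W506.PM

variable {k : Type u} [Field k]

/-- The matrix `mu` (all entries one). -/
def mu1 : Fin 4 → Fin 4 → k := fun _ _ => 1

/-- The four symmetric matrices. -/
def MM (i : k) : Fin 4 → Matrix (Fin 4) (Fin 4) k :=
  ![!![2, -(4 + 2 * i), 0, 1 - i; -(4 + 2 * i), 2, 1 + i, 0; 0, 1 + i, 0, 0; 1 - i, 0, 0, 0],
    !![0, 1, 0, 1; 1, 0, -1, 0; 0, -1, 0, 1; 1, 0, 1, 0],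
    !![0, 0, 0, -(1 - i); 0, 0, -(1 + i), 0; 0, -(1 + i), 2, -(4 - 2 * i);
      -(1 - i), 0, -(4 - 2 * i), 2],
    !![0, 0, 0, 0; 0, 0, 0, 1; 0, 0, 0, 0; 0, 1, 0, 0]]

/-- The tensor of the six relations. -/
def rr (i : k) : Fin 6 → Fin 4 → Fin 4 → k :=
  ![![![0, 0, 1, 0], ![0, 0, 0, 0], ![1, 0, 0, 0], ![0, 0, 0, 0]],
    ![![-1, 0, 0, 0], ![0, 1, 0, 0], ![0, 0, 0, 0], ![0, 0, 0, 0]],
    ![![0, 0, 0, 0], ![0, 0, 0, 0], ![0, 0, -1, 0], ![0, 0, 0, 1]],
    ![![-(5 + i), -1, 0, 1], ![-1, 0, 0, 0], ![0, 0, 1 - i, 0], ![1, 0, 0, 0]],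
    ![![-(4 + 2 * i), -1, 0, 0], ![-1, 0, 0, 0], ![0, 0, 4 - 2 * i, 1], ![0, 0, 1, 0]],
    ![![3 + i, 1, 0, 0], ![1, 0, 1, 0], ![0, 1, 1 + i, 0], ![0, 0, 0, 0]]]

/-- The six relations for four elements of an algebra. -/
structure Rels (i : k) {E : Type u} [Ring E] [Algebra k E] (a b c d : E) : Prop where
  ca : c * a = -(a * c)
  bb : b * b = a * a
  dd : d * d = c * c
  da : d * a = -(a * d) + a * b + b * a + (5 + i) • (a * a) - (1 - i) • (c * c)
  dc : d * c = -(c * d) + a * b + b * a + (4 + 2 * i) • (a * a) - (4 - 2 * i) • (c * c)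
  cb : c * b = -(b * c) - a * b - b * a - (3 + i) • (a * a) - (1 + i) • (c * c)

theorem rels_iff (i : k) {E : Type u} [Ring E] [Algebra k E] (y : Fin 4 → E) :
    (∀ s, ∑ j, ∑ l, rr i s j l • (y j * y l) = 0) ↔ Rels i (y 0) (y 1) (y 2) (y 3) := by
  constructor
  · intro h
    have h0 := h 0
    have h1 := h 1
    have h2 := h 2
    have h3 := h 3
    have h4 := h 4
    have h5 := h 5
    simp [Fin.sum_univ_four, rr] at h0 h1 h2 h3 h4 h5
    constructor
    · rw [← sub_eq_zero, ← h0]; abel
    · rw [← sub_eq_zero, ← h1]; abel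
    · rw [← sub_eq_zero, ← h2]; abel
    · rw [← sub_eq_zero, ← h3]; module
    · rw [← sub_eq_zero, ← h4]; module
    · rw [← sub_eq_zero, ← h5]; module
  · intro h s
    fin_cases s
    · have := h.ca
      rw [← sub_eq_zero] at this
      simp [Fin.sum_univ_four, rr]
      rw [← this]; abel
    · have := h.bb
      rw [← sub_eq_zero] at this
      simp [Fin.sum_univ_four, rr]
      rw [← this]; abel
    · have := h.dd
      rw [← sub_eq_zero] at this
      simp [Fin.sum_univ_four, rr]
      rw [← this]; abel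
    · have := h.da
      rw [← sub_eq_zero] at this
      simp [Fin.sum_univ_four, rr]
      rw [← this]; module
    · have := h.dc
      rw [← sub_eq_zero] at this
      simp [Fin.sum_univ_four, rr]
      rw [← this]; module
    · have := h.cb
      rw [← sub_eq_zero] at this
      simp [Fin.sum_univ_four, rr]
      rw [← this]; module

/-- The algebra. -/
abbrev AA (i : k) : Type u := GAlg k mu1 (MM i)

section Rel

variable {i : k} {E : Type u} [Ring E] [Algebra k E] {a b c d : E} (h : Rels i a b c d)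

/-- the parameter `u` -/
def uu (i : k) {E : Type u} [Ring E] [Algebra k E] (a b : E) : E :=
  a * b + b * a + (4 + 2 * i) • (a * a)

include h

theorem Rels.ad : a * d + d * a = uu i a b + (1 - i) • (a * a - c * c) := by
  rw [h.da, uu]; module

theorem Rels.cd : c * d + d * c = uu i a b - (4 - 2 * i) • (c * c) := by
  rw [h.dc, uu]; module

theorem Rels.bc : b * c + c * b = -uu i a b + (1 + i) • (a * a - c * c) := by
  rw [h.cb, uu]; module

theorem Rels.Sa : a * a * a = a * (a * a) := by rw [mul_assoc]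

theorem Rels.Sb : a * a * b = b * (a * a) := by rw [← h.bb, mul_assoc]

theorem Rels.Sc : a * a * c = c * (a * a) := by
  rw [← mul_assoc, h.ca, neg_mul, mul_assoc a c a, h.ca]; noncomm_ring

theorem Rels.Ta : c * c * a = a * (c * c) := by
  rw [mul_assoc, h.ca, mul_neg, ← mul_assoc c a c, h.ca]; noncomm_ring

theorem Rels.Tc : c * c * c = c * (c * c) := by rw [mul_assoc]

theorem Rels.Td : c * c * d = d * (c * c) := by rw [← h.dd, mul_assoc]

theorem Rels.ua : uu i a b * a = a * uu i a b := by
  have e : (a * b + b * a) * a = a * (a * b + b * a) := by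
    have e1 : b * (a * a) = a * a * b := h.Sb.symm
    have e2 : (a * b + b * a) * a - a * (a * b + b * a) = b * (a * a) - a * a * b := by
      noncomm_ring
    rw [← sub_eq_zero, e2, e1, sub_self]
  rw [uu, add_mul, mul_add, e, smul_mul_assoc, mul_smul_comm, mul_assoc]

theorem Rels.ub : uu i a b * b = b * uu i a b := by
  have e : (a * b + b * a) * b = b * (a * b + b * a) := by
    have e2 : (a * b + b * a) * b - b * (a * b + b * a) = a * (b * b) - b * b * a := by
      noncomm_ring
    rw [← sub_eq_zero, e2, h.bb, mul_assoc, sub_self]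
  rw [uu, add_mul, mul_add, e, smul_mul_assoc, mul_smul_comm, h.Sb]

theorem Rels.uc : uu i a b * c = c * uu i a b := by
  have e : (c * d + d * c) * c = c * (c * d + d * c) := by
    have e2 : (c * d + d * c) * c - c * (c * d + d * c) = d * (c * c) - c * c * d := by
      noncomm_ring
    rw [← sub_eq_zero, e2, h.Td, sub_self]
  rw [h.cd, sub_mul, mul_sub, smul_mul_assoc, mul_smul_comm, mul_assoc] at e
  exact sub_left_injective e

theorem Rels.ud : uu i a b * d = d * uu i a b := by
  have e : (c * d + d * c) * d = d * (c * d + d * c) := by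
    have e2 : (c * d + d * c) * d - d * (c * d + d * c) = c * (d * d) - d * d * c := by
      noncomm_ring
    rw [← sub_eq_zero, e2, h.dd, mul_assoc, sub_self]
  rw [h.cd, sub_mul, mul_sub, smul_mul_assoc, mul_smul_comm, h.Td] at e
  exact sub_left_injective e

theorem Rels.Sd : a * a * d = d * (a * a) := by
  have e : (a * d + d * a) * a = a * (a * d + d * a) := by
    rw [h.ad, add_mul, mul_add, h.ua, smul_mul_assoc, mul_smul_comm, sub_mul, mul_sub, h.Ta,
      mul_assoc]
  have e2 : (a * d + d * a) * a - a * (a * d + d * a) = d * (a * a) - a * a * d := by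
    noncomm_ring
  rw [← sub_eq_zero, e2] at e
  exact (sub_eq_zero.1 e).symm

theorem Rels.Tb : c * c * b = b * (c * c) := by
  have e : (b * c + c * b) * c = c * (b * c + c * b) := by
    rw [h.bc, add_mul, mul_add, neg_mul, mul_neg, h.uc, smul_mul_assoc, mul_smul_comm, sub_mul,
      mul_sub, h.Sc, mul_assoc c c c]
  have e2 : (b * c + c * b) * c - c * (b * c + c * b) = b * (c * c) - c * c * b := by
    noncomm_ring
  rw [← sub_eq_zero, e2] at e
  exact (sub_eq_zero.1 e).symm

theorem Rels.Pb : (b * d + d * b) * b = b * (b * d + d * b) := by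
  have e2 : (b * d + d * b) * b - b * (b * d + d * b) = d * (b * b) - b * b * d := by
    noncomm_ring
  rw [← sub_eq_zero, e2, h.bb, h.Sd, sub_self]

theorem Rels.Pd : (b * d + d * b) * d = d * (b * d + d * b) := by
  have e2 : (b * d + d * b) * d - d * (b * d + d * b) = b * (d * d) - d * d * b := by
    noncomm_ring
  rw [← sub_eq_zero, e2, h.dd, h.Tb, sub_self]

theorem Rels.Pa : (b * d + d * b) * a = a * (b * d + d * b) := by
  have hba : (a * b + b * a) * d = d * (a * b + b * a) := by
    have h1 := h.ud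
    rw [uu, add_mul, mul_add, smul_mul_assoc, mul_smul_comm, h.Sd] at h1
    exact add_right_cancel h1
  have hda : (a * d + d * a) * b = b * (a * d + d * a) := by
    rw [h.ad, add_mul, mul_add, h.ub, smul_mul_assoc, mul_smul_comm, sub_mul, mul_sub, h.Sb, h.Tb]
  have e2 : (b * d + d * b) * a - a * (b * d + d * b)
      = (b * (a * d + d * a) - (a * d + d * a) * b) + (d * (a * b + b * a) - (a * b + b * a) * d)
       := by
    noncomm_ring
  rw [← sub_eq_zero, e2, hba, hda, sub_self, sub_self, add_zero]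

theorem Rels.Pc : (b * d + d * b) * c = c * (b * d + d * b) := by
  have hbc : (b * c + c * b) * d = d * (b * c + c * b) := by
    rw [h.bc, add_mul, mul_add, neg_mul, mul_neg, h.ud, smul_mul_assoc, mul_smul_comm, sub_mul,
      mul_sub, h.Sd, h.Td]
  have hdc : (c * d + d * c) * b = b * (c * d + d * c) := by
    rw [h.cd, sub_mul, mul_sub, h.ub, smul_mul_assoc, mul_smul_comm, h.Tb]
  have e2 : (b * d + d * b) * c - c * (b * d + d * b)
      = (b * (c * d + d * c) - (c * d + d * c) * b) + (d * (b * c + c * b) - (b * c + c * b) * d)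
       := by
    noncomm_ring
  rw [← sub_eq_zero, e2, hbc, hdc, sub_self, sub_self, add_zero]

end Rel

end Pool.Agent.Y586.G2
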