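import Pool.Agent.Y586.G2.D1

/-!
# A graded Clifford algebra with two point modules: the universal property
-/

universe u

namespace Pool.Agent.Y586.G2

open Pool.Agent.W506.PM

variable {k : Type u} [Field k]

theorem lift_galg {n : ℕ} (μ : Fin n → Fin n → k) (M : Fin n → Matrix (Fin n) (Fin n) k)
    {E : Type u} [Ring E] [Algebra k E] (y : Fin n ⊕ Fin n → E)
    (key : ∀ i j : Fin n, y (Sum.inl i) * y (Sum.inl j)
        + μ i j • (y (Sum.inl j) * y (Sum.inl i)) = ∑ l, M l i j • y (Sum.inr l)) :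
    ∃ f : GAlg k μ M →ₐ[k] E, (∀ i, f (gx k μ M i) = y (Sum.inl i)) ∧
      ∀ i, f (gy k μ M i) = y (Sum.inr i) := by
  have hI : ∀ a ∈ (TwoSidedIdeal.span (grel k μ M)).asIdeal, FreeAlgebra.lift k y a = 0 := by
    intro a ha
    rw [TwoSidedIdeal.mem_asIdeal] at ha
    have hle : TwoSidedIdeal.span (grel k μ M)
        ≤ TwoSidedIdeal.ker (FreeAlgebra.lift k y) := by
      rw [TwoSidedIdeal.span_le]
      rintro _ ⟨i, j, rfl⟩
      apply (TwoSidedIdeal.mem_ker _).2
      simp only [map_sub, map_add, map_mul, map_smul, map_sum, FreeAlgebra.lift_ι_apply]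
      rw [key, sub_self]
    exact (TwoSidedIdeal.mem_ker _).1 (hle ha)
  refine ⟨Ideal.Quotient.liftₐ _ (FreeAlgebra.lift k y) hI, fun i => ?_, fun i => ?_⟩
  · exact FreeAlgebra.lift_ι_apply y (Sum.inl i)
  · exact FreeAlgebra.lift_ι_apply y (Sum.inr i)

section

variable (i : k)

/-- generators -/
noncomputable abbrev ea : AA i := gx k mu1 (MM i) 0
/-- generators -/
noncomputable abbrev eb : AA i := gx k mu1 (MM i) 1
/-- generators -/
noncomputable abbrev ec : AA i := gx k mu1 (MM i) 2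
/-- generators -/
noncomputable abbrev ed : AA i := gx k mu1 (MM i) 3

theorem g_rel4 (s j : Fin 4) (m0 m1 m2 m3 : k)
    (h0 : MM i 0 s j = m0) (h1 : MM i 1 s j = m1) (h2 : MM i 2 s j = m2)
    (h3 : MM i 3 s j = m3) :
    gx k mu1 (MM i) s * gx k mu1 (MM i) j + gx k mu1 (MM i) j * gx k mu1 (MM i) s
      = m0 • gy k mu1 (MM i) 0 + m1 • gy k mu1 (MM i) 1
        + m2 • gy k mu1 (MM i) 2 + m3 • gy k mu1 (MM i) 3 := by
  have := g_rel mu1 (MM i) s j
  rw [Fin.sum_univ_four, h0, h1, h2, h3] at this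
  rw [← this]
  simp [mu1]

variable (h2 : (2 : k) ≠ 0)

include h2

theorem gy0_eq : gy k mu1 (MM i) 0 = ea i * ea i := by
  have h := g_rel4 i 0 0 2 0 0 0 rfl rfl rfl rfl
  simp only [zero_smul, add_zero] at h
  exact (two_inj h2 h).symm

theorem gy2_eq : gy k mu1 (MM i) 2 = ec i * ec i := by
  have h := g_rel4 i 2 2 0 0 2 0 rfl rfl rfl rfl
  simp only [zero_smul, add_zero, zero_add] at h
  exact (two_inj h2 h).symm

omit h2 in
theorem gy3_eq : gy k mu1 (MM i) 3 = eb i * ed i + ed i * eb i := by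
  have h := g_rel4 i 1 3 0 0 0 1 rfl rfl rfl rfl
  simp only [zero_smul, zero_add, one_smul] at h
  exact h.symm

theorem gy1_eq : gy k mu1 (MM i) 1 = uu i (ea i) (eb i) := by
  have h := g_rel4 i 0 1 (-(4 + 2 * i)) 1 0 0 rfl rfl rfl rfl
  simp only [zero_smul, add_zero, one_smul] at h
  rw [gy0_eq i h2] at h
  rw [uu, h]
  module

theorem rels_AA : Rels i (ea i) (eb i) (ec i) (ed i) := by
  have g0 := gy0_eq i h2
  have g1 := gy1_eq i h2
  have g2 := gy2_eq i h2
  unfold uu at g1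
  constructor
  · have h := g_rel4 i 2 0 0 0 0 0 rfl rfl rfl rfl
    simp only [zero_smul, add_zero] at h
    exact eq_neg_of_add_eq_zero_left h
  · have h := g_rel4 i 1 1 2 0 0 0 rfl rfl rfl rfl
    simp only [zero_smul, add_zero] at h
    rw [two_inj h2 h, g0]
  · have h := g_rel4 i 3 3 0 0 2 0 rfl rfl rfl rfl
    simp only [zero_smul, add_zero, zero_add] at h
    rw [two_inj h2 h, g2]
  · have h := g_rel4 i 3 0 (1 - i) 1 (-(1 - i)) 0 rfl rfl rfl rfl
    simp only [zero_smul, add_zero, one_smul] at h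
    rw [g0, g1, g2] at h
    rw [eq_sub_of_add_eq h]
    module
  · have h := g_rel4 i 3 2 0 1 (-(4 - 2 * i)) 0 rfl rfl rfl rfl
    simp only [zero_smul, add_zero, zero_add, one_smul] at h
    rw [g1, g2] at h
    rw [eq_sub_of_add_eq h]
    module
  · have h := g_rel4 i 2 1 (1 + i) (-1) (-(1 + i)) 0 rfl rfl rfl rfl
    simp only [zero_smul, add_zero] at h
    rw [g0, g1, g2] at h
    rw [eq_sub_of_add_eq h]
    module

omit h2 in
/-- The universal property. -/
theorem up_AA' (E : Type u) [Ring E] [Algebra k E] (a b c d S u T P : E)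
    (haa : a * a = S) (hbb : b * b = S) (hcc : c * c = T) (hdd : d * d = T)
    (hac : a * c + c * a = 0) (had : a * d + d * a = u + (1 - i) • (S - T))
    (hcd : c * d + d * c = u - (4 - 2 * i) • T) (hab : a * b + b * a = u - (4 + 2 * i) • S)
    (hbc : b * c + c * b = -u + (1 + i) • (S - T)) (hbd : b * d + d * b = P) :
    ∃ f : AA i →ₐ[k] E, f (ea i) = a ∧ f (eb i) = b ∧ f (ec i) = c ∧ f (ed i) = d ∧
      f (gy k mu1 (MM i) 0) = S ∧ f (gy k mu1 (MM i) 1) = u ∧ f (gy k mu1 (MM i) 2) = T ∧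
      f (gy k mu1 (MM i) 3) = P := by
  obtain ⟨f, hf, hg⟩ := lift_galg mu1 (MM i) (Sum.elim ![a, b, c, d] ![S, u, T, P]) (by
    have e00 : a * a + (1 : k) • (a * a) = (2 : k) • S + (0 : k) • u + (0 : k) • T + (0 : k) • P
      := by rw [haa]; module
    have e01 : a * b + (1 : k) • (b * a) = (-(4 + 2 * i) : k) • S + (1 : k) • u + (0 : k) • T
        + (0 : k) • P := by rw [one_smul, hab]; module
    have e10 : b * a + (1 : k) • (a * b) = (-(4 + 2 * i) : k) • S + (1 : k) • u + (0 : k) • T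
        + (0 : k) • P := by rw [one_smul, add_comm, hab]; module
    have e02 : a * c + (1 : k) • (c * a) = (0 : k) • S + (0 : k) • u + (0 : k) • T
        + (0 : k) • P := by rw [one_smul, hac]; module
    have e20 : c * a + (1 : k) • (a * c) = (0 : k) • S + (0 : k) • u + (0 : k) • T
        + (0 : k) • P := by rw [one_smul, add_comm, hac]; module
    have e03 : a * d + (1 : k) • (d * a) = (1 - i : k) • S + (1 : k) • u + (-(1 - i) : k) • T
        + (0 : k) • P := by rw [one_smul, had]; module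
    have e30 : d * a + (1 : k) • (a * d) = (1 - i : k) • S + (1 : k) • u + (-(1 - i) : k) • T
        + (0 : k) • P := by rw [one_smul, add_comm, had]; module
    have e11 : b * b + (1 : k) • (b * b) = (2 : k) • S + (0 : k) • u + (0 : k) • T
        + (0 : k) • P := by rw [hbb]; module
    have e12 : b * c + (1 : k) • (c * b) = (1 + i : k) • S + (-1 : k) • u + (-(1 + i) : k) • T
        + (0 : k) • P := by rw [one_smul, hbc]; module
    have e21 : c * b + (1 : k) • (b * c) = (1 + i : k) • S + (-1 : k) • u + (-(1 + i) : k) • T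
        + (0 : k) • P := by rw [one_smul, add_comm, hbc]; module
    have e13 : b * d + (1 : k) • (d * b) = (0 : k) • S + (0 : k) • u + (0 : k) • T
        + (1 : k) • P := by rw [one_smul, hbd]; module
    have e31 : d * b + (1 : k) • (b * d) = (0 : k) • S + (0 : k) • u + (0 : k) • T
        + (1 : k) • P := by rw [one_smul, add_comm, hbd]; module
    have e22 : c * c + (1 : k) • (c * c) = (0 : k) • S + (0 : k) • u + (2 : k) • T
        + (0 : k) • P := by rw [hcc]; module
    have e23 : c * d + (1 : k) • (d * c) = (0 : k) • S + (1 : k) • u + (-(4 - 2 * i) : k) • T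
        + (0 : k) • P := by rw [one_smul, hcd]; module
    have e32 : d * c + (1 : k) • (c * d) = (0 : k) • S + (1 : k) • u + (-(4 - 2 * i) : k) • T
        + (0 : k) • P := by rw [one_smul, add_comm, hcd]; module
    have e33 : d * d + (1 : k) • (d * d) = (0 : k) • S + (0 : k) • u + (2 : k) • T
        + (0 : k) • P := by rw [hdd]; module
    intro s j
    rw [Fin.sum_univ_four]
    fin_cases s <;> fin_cases j
    exacts [e00, e01, e02, e03, e10, e11, e12, e13, e20, e21, e22, e23, e30, e31, e32, e33])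
  exact ⟨f, hf 0, hf 1, hf 2, hf 3, hg 0, hg 1, hg 2, hg 3⟩

omit h2 in
/-- The universal property. -/
theorem up_AA (E : Type u) [Ring E] [Algebra k E] (a b c d : E) (h : Rels i a b c d) :
    ∃ f : AA i →ₐ[k] E, f (ea i) = a ∧ f (eb i) = b ∧ f (ec i) = c ∧ f (ed i) = d := by
  obtain ⟨f, h0, h1, h2, h3, -⟩ := up_AA' i E a b c d (a * a) (uu i a b) (c * c) (b * d + d * b)
    rfl h.bb rfl h.dd (by rw [h.ca]; abel) h.ad h.cd (by rw [uu]; module) h.bc rfl
  exact ⟨f, h0, h1, h2, h3⟩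

theorem adjoin_AA : Algebra.adjoin k (Set.range (gx k mu1 (MM i))) = ⊤ := by
  rw [eq_top_iff, ← galg_adjoin]
  apply Algebra.adjoin_le
  have hx : ∀ j, gx k mu1 (MM i) j ∈ Algebra.adjoin k (Set.range (gx k mu1 (MM i))) :=
    fun j => Algebra.subset_adjoin ⟨j, rfl⟩
  rintro _ (⟨j, rfl⟩ | ⟨l, rfl⟩)
  · exact hx j
  · fin_cases l
    · exact (gy0_eq i h2).symm ▸ Subalgebra.mul_mem _ (hx 0) (hx 0)
    · have : uu i (ea i) (eb i) ∈ Algebra.adjoin k (Set.range (gx k mu1 (MM i))) := by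
        unfold uu
        exact Subalgebra.add_mem _ (Subalgebra.add_mem _ (Subalgebra.mul_mem _ (hx 0) (hx 1))
          (Subalgebra.mul_mem _ (hx 1) (hx 0))) (Subalgebra.smul_mem _
          (Subalgebra.mul_mem _ (hx 0) (hx 0)) _)
      exact (gy1_eq i h2).symm ▸ this
    · exact (gy2_eq i h2).symm ▸ Subalgebra.mul_mem _ (hx 2) (hx 2)
    · exact (gy3_eq i).symm ▸ Subalgebra.add_mem _ (Subalgebra.mul_mem _ (hx 1) (hx 3))
        (Subalgebra.mul_mem _ (hx 3) (hx 1))

theorem isPres_AA : IsPres (gx k mu1 (MM i)) (rr i) where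
  rel := (rels_iff i _).2 (rels_AA i h2)
  gen := adjoin_AA i h2
  up E _ _ y hy := by
    obtain ⟨f, h0, h1, h2, h3⟩ := up_AA i E _ _ _ _ ((rels_iff i y).1 hy)
    refine ⟨f, fun j => ?_⟩
    fin_cases j
    exacts [h0, h1, h2, h3]

/-- The `y_l` are central. -/
theorem gy_comm (l j : Fin 4) :
    gy k mu1 (MM i) l * gx k mu1 (MM i) j = gx k mu1 (MM i) j * gy k mu1 (MM i) l := by
  have h := rels_AA i h2
  fin_cases l
  · show gy k mu1 (MM i) 0 * _ = _ * gy k mu1 (MM i) 0
    rw [gy0_eq i h2]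
    fin_cases j
    exacts [h.Sa, h.Sb, h.Sc, h.Sd]
  · show gy k mu1 (MM i) 1 * _ = _ * gy k mu1 (MM i) 1
    rw [gy1_eq i h2]
    fin_cases j
    exacts [h.ua, h.ub, h.uc, h.ud]
  · show gy k mu1 (MM i) 2 * _ = _ * gy k mu1 (MM i) 2
    rw [gy2_eq i h2]
    fin_cases j
    exacts [h.Ta, h.Tb, h.Tc, h.Td]
  · show gy k mu1 (MM i) 3 * _ = _ * gy k mu1 (MM i) 3
    rw [gy3_eq i]
    fin_cases j
    exacts [h.Pa, h.Pb, h.Pc, h.Pd]

theorem gy_central (l : Fin 4) (z : AA i) :
    gy k mu1 (MM i) l * z = z * gy k mu1 (MM i) l := by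
  have hz : z ∈ Algebra.adjoin k (Set.range (gx k mu1 (MM i))) := by
    rw [adjoin_AA i h2]; trivial
  induction hz using Algebra.adjoin_induction with
  | mem y hy => obtain ⟨j, rfl⟩ := hy; exact gy_comm i h2 l j
  | algebraMap c => exact (Algebra.commutes c _).symm
  | add y z _ _ hy hz => rw [mul_add, add_mul, hy, hz]
  | mul y z _ _ hy hz => rw [← mul_assoc, hy, mul_assoc, hz, mul_assoc]

theorem isGSCA_AA : IsGSCA k mu1 (MM i) where
  mu_ne_zero _ _ := one_ne_zero
  mu_mul _ _ := one_mul 1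
  mu_diag _ := rfl
  symm l s j := by
    fin_cases l <;> fin_cases s <;> fin_cases j <;> simp [mu1, MM]
  normalizing := ⟨gy k mu1 (MM i), rfl, fun l =>
    ⟨fun z => ⟨z, by rw [gy_central i h2, sub_self]; exact TwoSidedIdeal.zero_mem _⟩,
      fun z => ⟨z, by rw [gy_central i h2, sub_self]; exact TwoSidedIdeal.zero_mem _⟩⟩⟩

end

end Pool.Agent.Y586.G2
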