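import Mathlib

/-!
# Spanning by ordered products
-/

universe u v

namespace Pool.Agent.Y586.G2

section Tower

variable {R : Type u} [CommRing R] {E : Type v} [Ring E] [Algebra R E]

/-- `N` is closed under left multiplication by `x`. -/
def LC (N : Submodule R E) (x : E) : Prop := ∀ n ∈ N, x * n ∈ N

theorem LC.add {N : Submodule R E} {x y : E} (hx : LC N x) (hy : LC N y) : LC N (x + y) :=
  fun n hn => by rw [add_mul]; exact N.add_mem (hx n hn) (hy n hn)

theorem LC.sub {N : Submodule R E} {x y : E} (hx : LC N x) (hy : LC N y) : LC N (x - y) :=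
  fun n hn => by rw [sub_mul]; exact N.sub_mem (hx n hn) (hy n hn)

theorem LC.neg {N : Submodule R E} {x : E} (hx : LC N x) : LC N (-x) :=
  fun n hn => by rw [neg_mul]; exact N.neg_mem (hx n hn)

theorem LC.smul {N : Submodule R E} {x : E} (hx : LC N x) (r : R) : LC N (r • x) :=
  fun n hn => by rw [smul_mul_assoc]; exact N.smul_mem _ (hx n hn)

theorem LC.zero (N : Submodule R E) : LC N (0 : E) :=
  fun n _ => by rw [zero_mul]; exact N.zero_mem

theorem LC.algebraMap (N : Submodule R E) (r : R) : LC N (algebraMap R E r) :=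
  fun n hn => by rw [← Algebra.smul_def]; exact N.smul_mem _ hn

/-- `N + g N` -/
def stepN (N : Submodule R E) (g : E) : Submodule R E := N ⊔ N.map (LinearMap.mulLeft R g)

theorem mem_stepN {N : Submodule R E} {g x : E} :
    x ∈ stepN N g ↔ ∃ n ∈ N, ∃ m ∈ N, n + g * m = x := by
  unfold stepN
  rw [Submodule.mem_sup]
  constructor
  · rintro ⟨n, hn, z, hz, rfl⟩
    obtain ⟨m, hm, rfl⟩ := Submodule.mem_map.1 hz
    exact ⟨n, hn, m, hm, rfl⟩
  · rintro ⟨n, hn, m, hm, rfl⟩
    exact ⟨n, hn, g * m, Submodule.mem_map.2 ⟨m, hm, rfl⟩, rfl⟩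

theorem le_stepN (N : Submodule R E) (g : E) : N ≤ stepN N g := le_sup_left

theorem LC.step_self {N : Submodule R E} {g z : E} (hz : LC N z) (e : g * g = z) :
    LC (stepN N g) g := by
  intro x hx
  obtain ⟨n, hn, m, hm, rfl⟩ := mem_stepN.1 hx
  refine mem_stepN.2 ⟨z * m, hz m hm, n, hn, ?_⟩
  rw [mul_add, ← mul_assoc, e]; abel

theorem LC.step_other {N : Submodule R E} {g h z : E} (hz : LC N z) (hh : LC N h)
    (e : g * h + h * g = z) : LC (stepN N g) h := by
  intro x hx
  obtain ⟨n, hn, m, hm, rfl⟩ := mem_stepN.1 hx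
  refine mem_stepN.2 ⟨h * n + z * m, N.add_mem (hh n hn) (hz m hm), -(h * m),
    N.neg_mem (hh m hm), ?_⟩
  rw [← e]; noncomm_ring

theorem LC.step_cen {N : Submodule R E} {g z : E} (hz : LC N z) (e : z * g = g * z) :
    LC (stepN N g) z := by
  intro x hx
  obtain ⟨n, hn, m, hm, rfl⟩ := mem_stepN.1 hx
  refine mem_stepN.2 ⟨z * n, hz n hn, z * m, hz m hm, ?_⟩
  rw [mul_add, ← mul_assoc z g m, e, mul_assoc]

theorem stepN_le {ι : Type*} {N : Submodule R E} (F : ι → E)
    (hN : N ≤ Submodule.span R (Set.range F)) (g : E) :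
    stepN N g ≤ Submodule.span R (Set.range fun p : Fin 2 × ι => g ^ (p.1 : ℕ) * F p.2) := by
  apply sup_le
  · refine hN.trans (Submodule.span_le.2 ?_)
    rintro _ ⟨j, rfl⟩
    exact Submodule.subset_span ⟨(0, j), by simp⟩
  · refine (Submodule.map_mono hN).trans ?_
    rw [Submodule.map_span, Submodule.span_le]
    rintro _ ⟨_, ⟨j, rfl⟩, rfl⟩
    exact Submodule.subset_span ⟨(1, j), by simp⟩

/-- the module generated by the ordered products over `N` -/
def towerN (N : Submodule R E) (a b c d : E) : Submodule R E :=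
  stepN (stepN (stepN (stepN N d) c) b) a

/-- the data: squares and anticommutators act on `N` and commute with the generators -/
structure Tow (N : Submodule R E) (Z : Set E) (a b c d : E) : Prop where
  lc : ∀ z ∈ Z, LC N z
  ca : ∀ z ∈ Z, z * a = a * z
  cb : ∀ z ∈ Z, z * b = b * z
  cc : ∀ z ∈ Z, z * c = c * z
  cd : ∀ z ∈ Z, z * d = d * z
  aa : a * a ∈ Z
  bb : b * b ∈ Z
  ccc : c * c ∈ Z
  dd : d * d ∈ Z
  ab : a * b + b * a ∈ Z
  ac : a * c + c * a ∈ Z
  ad : a * d + d * a ∈ Z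
  bc : b * c + c * b ∈ Z
  bd : b * d + d * b ∈ Z
  cdd : c * d + d * c ∈ Z

theorem Tow.all {N : Submodule R E} {Z : Set E} {a b c d : E} (h : Tow N Z a b c d) :
    LC (towerN N a b c d) a ∧ LC (towerN N a b c d) b ∧ LC (towerN N a b c d) c ∧
      LC (towerN N a b c d) d ∧ ∀ z ∈ Z, LC (towerN N a b c d) z := by
  have z1 : ∀ z ∈ Z, LC (stepN N d) z := fun z hz => (h.lc z hz).step_cen (h.cd z hz)
  have z2 : ∀ z ∈ Z, LC (stepN (stepN N d) c) z := fun z hz => (z1 z hz).step_cen (h.cc z hz)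
  have z3 : ∀ z ∈ Z, LC (stepN (stepN (stepN N d) c) b) z :=
    fun z hz => (z2 z hz).step_cen (h.cb z hz)
  have z4 : ∀ z ∈ Z, LC (towerN N a b c d) z := fun z hz => (z3 z hz).step_cen (h.ca z hz)
  have d1 : LC (stepN N d) d := LC.step_self (h.lc _ h.dd) rfl
  have d2 : LC (stepN (stepN N d) c) d := LC.step_other (z1 _ h.cdd) d1 rfl
  have c2 : LC (stepN (stepN N d) c) c := LC.step_self (z1 _ h.ccc) rfl
  have d3 : LC (stepN (stepN (stepN N d) c) b) d := LC.step_other (z2 _ h.bd) d2 rfl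
  have c3 : LC (stepN (stepN (stepN N d) c) b) c := LC.step_other (z2 _ h.bc) c2 rfl
  have b3 : LC (stepN (stepN (stepN N d) c) b) b := LC.step_self (z2 _ h.bb) rfl
  exact ⟨LC.step_self (z3 _ h.aa) rfl, LC.step_other (z3 _ h.ab) b3 rfl,
    LC.step_other (z3 _ h.ac) c3 rfl, LC.step_other (z3 _ h.ad) d3 rfl, z4⟩

/-- the ordered products -/
def opr {ι : Type*} (a b c d : E) (F : ι → E)
    (p : Fin 2 × (Fin 2 × (Fin 2 × (Fin 2 × ι)))) : E :=
  a ^ (p.1 : ℕ) * (b ^ (p.2.1 : ℕ) * (c ^ (p.2.2.1 : ℕ) * (d ^ (p.2.2.2.1 : ℕ) * F p.2.2.2.2)))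

theorem towerN_le {ι : Type*} {N : Submodule R E} (F : ι → E)
    (hN : N ≤ Submodule.span R (Set.range F)) (a b c d : E) :
    towerN N a b c d ≤ Submodule.span R (Set.range (opr a b c d F)) :=
  stepN_le _ (stepN_le _ (stepN_le _ (stepN_le F hN d) c) b) a

theorem le_towerN (N : Submodule R E) (a b c d : E) : N ≤ towerN N a b c d :=
  (((le_stepN N d).trans (le_stepN _ c)).trans (le_stepN _ b)).trans (le_stepN _ a)

theorem tower_top {N : Submodule R E} {Z : Set E} {a b c d : E} (h : Tow N Z a b c d)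
    (h1 : (1 : E) ∈ N) (hgen : Algebra.adjoin R ({a, b, c, d} : Set E) = ⊤) :
    towerN N a b c d = ⊤ := by
  obtain ⟨ha, hb, hc, hd, -⟩ := h.all
  have key : ∀ x : E, LC (towerN N a b c d) x := by
    intro x
    have hx : x ∈ Algebra.adjoin R ({a, b, c, d} : Set E) := by rw [hgen]; trivial
    induction hx using Algebra.adjoin_induction with
    | mem y hy =>
      rcases hy with rfl | rfl | rfl | rfl
      exacts [ha, hb, hc, hd]
    | algebraMap r => exact LC.algebraMap _ r
    | add y z _ _ hy hz => exact hy.add hz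
    | mul y z _ _ hy hz => intro n hn; rw [mul_assoc]; exact hy _ (hz n hn)
  rw [eq_top_iff]
  intro x _
  have := key x 1 (le_towerN N a b c d h1)
  rwa [mul_one] at this

end Tower

end Pool.Agent.Y586.G2
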