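import Pool.Agent.Y586.G2.D2
import Pool.Agent.Y586.G2.D3

/-!
# The Clifford algebra over the polynomial ring
-/

universe u

namespace Pool.Agent.Y586.G2

open Pool.Agent.W506.PM MvPolynomial

variable {k : Type u} [Field k]

/-- the polynomial ring -/
abbrev RR (k : Type u) [Field k] : Type u := MvPolynomial (Fin 4) k

/-- the matrix of the bilinear form -/
noncomputable def Bm (i : k) : Matrix (Fin 4) (Fin 4) (RR k) :=
  !![X 0, X 1 - C (4 + 2 * i) * X 0, 0, X 1 + C (1 - i) * (X 0 - X 2);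
    0, X 0, -X 1 + C (1 + i) * (X 0 - X 2), X 3;
    0, 0, X 2, X 1 - C (4 - 2 * i) * X 2;
    0, 0, 0, X 2]

/-- the bilinear form -/
noncomputable def Bf (i : k) : LinearMap.BilinForm (RR k) (Fin 4 → RR k) := Matrix.toBilin' (Bm i)

/-- the quadratic form -/
noncomputable def QQ (i : k) : QuadraticForm (RR k) (Fin 4 → RR k) :=
  LinearMap.BilinMap.toQuadraticMap (Bf i)

/-- the Clifford algebra -/
abbrev CC (i : k) : Type u := CliffordAlgebra (QQ i)

/-- generators -/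
noncomputable def cg (i : k) (j : Fin 4) : CC i := CliffordAlgebra.ι (QQ i) (Pi.single j 1)

variable (i : k)

theorem cg_sq (j : Fin 4) : cg i j * cg i j = algebraMap (RR k) (CC i) (Bm i j j) := by
  rw [cg, CliffordAlgebra.ι_sq_scalar]
  congr 1
  rw [QQ, LinearMap.BilinMap.toQuadraticMap_apply, Bf, Matrix.toBilin'_single]

theorem cg_add (j l : Fin 4) :
    cg i j * cg i l + cg i l * cg i j = algebraMap (RR k) (CC i) (Bm i j l + Bm i l j) := by
  rw [cg, cg, CliffordAlgebra.ι_mul_ι_add_swap]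
  congr 1
  rw [QQ, LinearMap.BilinMap.polar_toQuadraticMap, Bf, Matrix.toBilin'_single,
    Matrix.toBilin'_single]

theorem smul_am (r : k) (p : RR k) :
    r • algebraMap (RR k) (CC i) p = algebraMap (RR k) (CC i) (C r * p) := by
  rw [map_mul, Algebra.smul_def, IsScalarTower.algebraMap_apply k (RR k) (CC i)]
  rfl

theorem exists_phi : ∃ f : AA i →ₐ[k] CC i,
    f (ea i) = cg i 0 ∧ f (eb i) = cg i 1 ∧ f (ec i) = cg i 2 ∧ f (ed i) = cg i 3 ∧
      f (gy k mu1 (MM i) 0) = algebraMap (RR k) (CC i) (X 0) ∧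
      f (gy k mu1 (MM i) 1) = algebraMap (RR k) (CC i) (X 1) ∧
      f (gy k mu1 (MM i) 2) = algebraMap (RR k) (CC i) (X 2) ∧
      f (gy k mu1 (MM i) 3) = algebraMap (RR k) (CC i) (X 3) := by
  apply up_AA'
  · rw [cg_sq]; rfl
  · rw [cg_sq]; rfl
  · rw [cg_sq]; rfl
  · rw [cg_sq]; rfl
  · rw [cg_add]; simp [Bm]
  · rw [cg_add, ← map_sub, smul_am, ← map_add]; simp [Bm]
  · rw [cg_add, smul_am, ← map_sub]; simp [Bm]
  · rw [cg_add, smul_am, ← map_sub]; simp [Bm]
  · rw [cg_add, ← map_sub, smul_am, ← map_neg, ← map_add]; simp [Bm]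
  · rw [cg_add]; simp [Bm]

theorem adjoin_CC :
    Algebra.adjoin (RR k) ({cg i 0, cg i 1, cg i 2, cg i 3} : Set (CC i)) = ⊤ := by
  rw [eq_top_iff, ← CliffordAlgebra.adjoin_range_ι]
  apply Algebra.adjoin_le
  rintro _ ⟨m, rfl⟩
  have : m = ∑ j, m j • Pi.single (M := fun _ => RR k) j (1 : RR k) := by
    ext j
    simp [Finset.sum_apply, Pi.single_apply]
  rw [this, map_sum, Fin.sum_univ_four]
  simp only [map_smul]
  refine Subalgebra.add_mem _ (Subalgebra.add_mem _ (Subalgebra.add_mem _ ?_ ?_) ?_) ?_ <;>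
    exact Subalgebra.smul_mem _ (Algebra.subset_adjoin (by simp [cg])) _

theorem tow_CC : Tow (Submodule.span (RR k) {(1 : CC i)}) (Set.range (algebraMap (RR k) (CC i)))
    (cg i 0) (cg i 1) (cg i 2) (cg i 3) where
  lc := by rintro _ ⟨r, rfl⟩; exact LC.algebraMap _ r
  ca := by rintro _ ⟨r, rfl⟩; exact Algebra.commutes r _
  cb := by rintro _ ⟨r, rfl⟩; exact Algebra.commutes r _
  cc := by rintro _ ⟨r, rfl⟩; exact Algebra.commutes r _
  cd := by rintro _ ⟨r, rfl⟩; exact Algebra.commutes r _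
  aa := ⟨_, (cg_sq i 0).symm⟩
  bb := ⟨_, (cg_sq i 1).symm⟩
  ccc := ⟨_, (cg_sq i 2).symm⟩
  dd := ⟨_, (cg_sq i 3).symm⟩
  ab := ⟨_, (cg_add i 0 1).symm⟩
  ac := ⟨_, (cg_add i 0 2).symm⟩
  ad := ⟨_, (cg_add i 0 3).symm⟩
  bc := ⟨_, (cg_add i 1 2).symm⟩
  bd := ⟨_, (cg_add i 1 3).symm⟩
  cdd := ⟨_, (cg_add i 2 3).symm⟩

/-- the sixteen products -/
noncomputable def cpr (p : Fin 2 × (Fin 2 × (Fin 2 × (Fin 2 × Unit)))) : CC i :=
  opr (cg i 0) (cg i 1) (cg i 2) (cg i 3) (fun _ => 1) p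

theorem span_cpr : Submodule.span (RR k) (Set.range (cpr i)) = ⊤ := by
  rw [eq_top_iff, ← tower_top (tow_CC i) (Submodule.mem_span_singleton_self _) (adjoin_CC i)]
  refine (towerN_le (fun _ : Unit => (1 : CC i)) ?_ _ _ _ _).trans (le_of_eq rfl)
  apply Submodule.span_mono
  rintro _ rfl
  exact ⟨(), rfl⟩

/-- the basis coming from the exterior algebra -/
noncomputable def cbas : Module.Basis (Finset (Fin 4)) (RR k) (CC i) :=
  ((Pi.basisFun (RR k) (Fin 4)).ExteriorAlgebra).map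
    (CliffordAlgebra.changeFormEquiv (B := Bf i) (Q := 0) (Q' := QQ i) (by rw [sub_zero]; rfl))

theorem linInd_cpr : LinearIndependent (RR k) (cpr i) := by
  apply linearIndependent_of_top_le_span_of_card_eq_finrank
  · rw [span_cpr]
  · rw [Module.finrank_eq_card_basis (cbas i)]
    simp

end Pool.Agent.Y586.G2
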