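import Pool.Agent.Y586.G2.D4
import Pool.Agent.W506.PM.CG

/-!
# The monomial basis and the graded pieces
-/

universe u

namespace Pool.Agent.Y586.G2

open Pool.Agent.W506.PM MvPolynomial

variable {k : Type u} [Field k] (i : k)

/-- the monomials in the central elements -/
noncomputable def YY (α : Fin 4 → ℕ) : AA i :=
  gy k mu1 (MM i) 0 ^ α 0 * (gy k mu1 (MM i) 1 ^ α 1 * (gy k mu1 (MM i) 2 ^ α 2
    * gy k mu1 (MM i) 3 ^ α 3))

/-- the exponents modulo two -/
def md (n : Fin 4 → ℕ) : Fin 2 × (Fin 2 × (Fin 2 × Fin 2)) :=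
  (⟨n 0 % 2, Nat.mod_lt _ two_pos⟩, ⟨n 1 % 2, Nat.mod_lt _ two_pos⟩,
    ⟨n 2 % 2, Nat.mod_lt _ two_pos⟩, ⟨n 3 % 2, Nat.mod_lt _ two_pos⟩)

/-- half of the exponents -/
def hf (n : Fin 4 → ℕ) : Fin 4 → ℕ := fun j => n j / 2

/-- the standard monomials -/
noncomputable def BB (n : Fin 4 → ℕ) : AA i :=
  opr (ea i) (eb i) (ec i) (ed i) (YY i) ((md n).1, (md n).2.1, (md n).2.2.1, (md n).2.2.2, hf n)

theorem BB_eq (n : Fin 4 → ℕ) : BB i n = ea i ^ (n 0 % 2) * (eb i ^ (n 1 % 2)
    * (ec i ^ (n 2 % 2) * (ed i ^ (n 3 % 2) * YY i (hf n)))) := rfl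

section lin

/-- the homomorphism to the Clifford algebra -/
noncomputable def phi : AA i →ₐ[k] CC i := (exists_phi i).choose

theorem phi_YY (α : Fin 4 → ℕ) : phi i (YY i α)
    = algebraMap (RR k) (CC i) (monomial (Finsupp.equivFunOnFinite.symm α) 1) := by
  obtain ⟨-, -, -, -, h0, h1, h2, h3⟩ := (exists_phi i).choose_spec
  change phi i (gy k mu1 (MM i) 0) = _ at h0
  change phi i (gy k mu1 (MM i) 1) = _ at h1
  change phi i (gy k mu1 (MM i) 2) = _ at h2
  change phi i (gy k mu1 (MM i) 3) = _ at h3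
  rw [YY]
  simp only [map_mul, map_pow, h0, h1, h2, h3]
  simp only [← map_pow, ← map_mul]
  congr 1
  rw [MvPolynomial.monomial_eq, Finsupp.prod_fintype _ _ (fun _ => pow_zero _),
    Fin.prod_univ_four]
  simp [mul_assoc]

theorem phi_BB (n : Fin 4 → ℕ) : phi i (BB i n)
    = (monomial (Finsupp.equivFunOnFinite.symm (hf n)) (1 : k) : RR k) •
      cpr i ((md n).1, (md n).2.1, (md n).2.2.1, (md n).2.2.2, ()) := by
  obtain ⟨h0, h1, h2, h3, -⟩ := (exists_phi i).choose_spec
  change phi i (ea i) = _ at h0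
  change phi i (eb i) = _ at h1
  change phi i (ec i) = _ at h2
  change phi i (ed i) = _ at h3
  rw [BB_eq, map_mul, map_mul, map_mul, map_mul, map_pow, map_pow, map_pow, map_pow, h0, h1, h2,
    h3, phi_YY, cpr, opr, Algebra.smul_def, mul_one, Algebra.commutes]
  simp only [mul_assoc]
  rfl

theorem linearIndependent_BB : LinearIndependent k (BB i) := by
  have h1 : LinearIndependent k (fun s : Fin 4 →₀ ℕ => (monomial s (1 : k) : RR k)) := by
    have := (MvPolynomial.basisMonomials (Fin 4) k).linearIndependent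
    rwa [MvPolynomial.coe_basisMonomials] at this
  have h2 := linearIndependent_smul h1 (linInd_cpr i)
  have h3 := h2.comp (fun n : Fin 4 → ℕ => ((Finsupp.equivFunOnFinite.symm (hf n) : Fin 4 →₀ ℕ),
    ((md n).1, (md n).2.1, (md n).2.2.1, (md n).2.2.2, ()))) (by
      intro n m hnm
      simp only [Prod.mk.injEq, md, hf] at hnm
      obtain ⟨e, e0, e1, e2, e3, -⟩ := hnm
      have e' := Finsupp.equivFunOnFinite.symm.injective e
      simp only [Fin.mk.injEq] at e0 e1 e2 e3
      funext j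
      have ej := congrFun e' j
      fin_cases j
      · change n 0 / 2 = m 0 / 2 at ej; show n 0 = m 0; omega
      · change n 1 / 2 = m 1 / 2 at ej; show n 1 = m 1; omega
      · change n 2 / 2 = m 2 / 2 at ej; show n 2 = m 2; omega
      · change n 3 / 2 = m 3 / 2 at ej; show n 3 = m 3; omega)
  apply LinearIndependent.of_comp (phi i).toLinearMap
  have e : (⇑(phi i).toLinearMap ∘ BB i) = ((fun p : (Fin 4 →₀ ℕ) × _ =>
      (monomial p.1 (1 : k) : RR k) • cpr i p.2) ∘ fun n : Fin 4 → ℕ =>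
      ((Finsupp.equivFunOnFinite.symm (hf n) : Fin 4 →₀ ℕ),
        ((md n).1, (md n).2.1, (md n).2.2.1, (md n).2.2.2, ()))) := by
    funext n
    exact phi_BB i n
  rw [e]
  exact h3

end lin

section span

variable (h2 : (2 : k) ≠ 0)

/-- the span of the central generators -/
def Zs : Set (AA i) := {z | z ∈ Submodule.span k (Set.range (gy k mu1 (MM i)))}

theorem gy_mem_Zs (l : Fin 4) : gy k mu1 (MM i) l ∈ Zs i := Submodule.subset_span ⟨l, rfl⟩

theorem sum_Zs (f : Fin 4 → k) : ∑ l, f l • gy k mu1 (MM i) l ∈ Zs i := by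
  show _ ∈ Submodule.span k (Set.range (gy k mu1 (MM i)))
  exact Submodule.sum_mem _ fun l _ => Submodule.smul_mem _ _ (Submodule.subset_span ⟨l, rfl⟩)

include h2

theorem Zs_central (z : AA i) (hz : z ∈ Zs i) (x : AA i) : z * x = x * z := by
  change z ∈ Submodule.span k _ at hz
  induction hz using Submodule.span_induction with
  | mem y hy => obtain ⟨l, rfl⟩ := hy; exact gy_central i h2 l x
  | zero => rw [zero_mul, mul_zero]
  | add y z _ _ hy hz => rw [mul_add, add_mul, hy, hz]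
  | smul c y _ hy => rw [smul_mul_assoc, mul_smul_comm, hy]

theorem gy_YY (l : Fin 4) (α : Fin 4 → ℕ) :
    gy k mu1 (MM i) l * YY i α = YY i (α + Pi.single l 1) := by
  have hc : ∀ l z, gy k mu1 (MM i) l * z = z * gy k mu1 (MM i) l := gy_central i h2
  unfold YY
  fin_cases l
  · show gy k mu1 (MM i) 0 * _ = _
    simp only [Pi.add_apply, ne_eq, Fin.reduceEq, not_false_eq_true, Pi.single_eq_of_ne,
      Pi.single_eq_same, add_zero, Fin.zero_eta, Fin.isValue, one_ne_zero, pow_succ']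
    simp only [mul_assoc]
  · show gy k mu1 (MM i) 1 * _ = _
    simp only [Pi.add_apply, ne_eq, Fin.reduceEq, not_false_eq_true, Pi.single_eq_of_ne,
      Pi.single_eq_same, add_zero, Fin.mk_one, Fin.isValue, zero_ne_one, pow_succ']
    rw [← mul_assoc, hc 1 (gy k mu1 (MM i) 0 ^ α 0)]
    simp only [mul_assoc]
  · show gy k mu1 (MM i) 2 * _ = _
    simp only [Pi.add_apply, ne_eq, Fin.reduceEq, not_false_eq_true, Pi.single_eq_of_ne,
      Pi.single_eq_same, add_zero, Fin.reduceFinMk, Fin.isValue, pow_succ']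
    rw [← mul_assoc, hc 2 (gy k mu1 (MM i) 0 ^ α 0), mul_assoc,
      ← mul_assoc (gy k mu1 (MM i) 2), hc 2 (gy k mu1 (MM i) 1 ^ α 1)]
    simp only [mul_assoc]
  · show gy k mu1 (MM i) 3 * _ = _
    simp only [Pi.add_apply, ne_eq, Fin.reduceEq, not_false_eq_true, Pi.single_eq_of_ne,
      Pi.single_eq_same, add_zero, Fin.reduceFinMk, Fin.isValue, pow_succ']
    rw [← mul_assoc, hc 3 (gy k mu1 (MM i) 0 ^ α 0), mul_assoc,
      ← mul_assoc (gy k mu1 (MM i) 3), hc 3 (gy k mu1 (MM i) 1 ^ α 1), mul_assoc,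
      ← mul_assoc (gy k mu1 (MM i) 3), hc 3 (gy k mu1 (MM i) 2 ^ α 2)]
    simp only [mul_assoc]

theorem tow_AA : Tow (Submodule.span k (Set.range (YY i))) (Zs i) (ea i) (eb i) (ec i) (ed i)
    where
  lc := by
    intro z hz
    change z ∈ Submodule.span k _ at hz
    induction hz using Submodule.span_induction with
    | mem y hy =>
      obtain ⟨l, rfl⟩ := hy
      intro n hn
      induction hn using Submodule.span_induction with
      | mem y hy => obtain ⟨α, rfl⟩ := hy; rw [gy_YY i h2]; exact Submodule.subset_span ⟨_, rfl⟩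
      | zero => rw [mul_zero]; exact Submodule.zero_mem _
      | add y z _ _ hy hz => rw [mul_add]; exact Submodule.add_mem _ hy hz
      | smul c y _ hy => rw [mul_smul_comm]; exact Submodule.smul_mem _ _ hy
    | zero => exact LC.zero _
    | add y z _ _ hy hz => exact hy.add hz
    | smul c y _ hy => exact hy.smul c
  ca z hz := Zs_central i h2 z hz _
  cb z hz := Zs_central i h2 z hz _
  cc z hz := Zs_central i h2 z hz _
  cd z hz := Zs_central i h2 z hz _
  aa := by rw [← gy0_eq i h2]; exact gy_mem_Zs i 0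
  bb := by rw [(rels_AA i h2).bb, ← gy0_eq i h2]; exact gy_mem_Zs i 0
  ccc := by rw [← gy2_eq i h2]; exact gy_mem_Zs i 2
  dd := by rw [(rels_AA i h2).dd, ← gy2_eq i h2]; exact gy_mem_Zs i 2
  ab := by
    have e := g_rel mu1 (MM i) 0 1
    rw [show mu1 (k := k) 0 1 = 1 from rfl, one_smul] at e
    rw [e]; exact sum_Zs i _
  ac := by
    have e := g_rel mu1 (MM i) 0 2
    rw [show mu1 (k := k) 0 2 = 1 from rfl, one_smul] at e
    rw [e]; exact sum_Zs i _
  ad := by
    have e := g_rel mu1 (MM i) 0 3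
    rw [show mu1 (k := k) 0 3 = 1 from rfl, one_smul] at e
    rw [e]; exact sum_Zs i _
  bc := by
    have e := g_rel mu1 (MM i) 1 2
    rw [show mu1 (k := k) 1 2 = 1 from rfl, one_smul] at e
    rw [e]; exact sum_Zs i _
  bd := by
    have e := g_rel mu1 (MM i) 1 3
    rw [show mu1 (k := k) 1 3 = 1 from rfl, one_smul] at e
    rw [e]; exact sum_Zs i _
  cdd := by
    have e := g_rel mu1 (MM i) 2 3
    rw [show mu1 (k := k) 2 3 = 1 from rfl, one_smul] at e
    rw [e]; exact sum_Zs i _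

theorem span_BB : Submodule.span k (Set.range (BB i)) = ⊤ := by
  have hgen : Algebra.adjoin k ({ea i, eb i, ec i, ed i} : Set (AA i)) = ⊤ := by
    rw [← adjoin_AA i h2]
    congr 1
    ext z
    constructor
    · rintro (rfl | rfl | rfl | rfl)
      exacts [⟨0, rfl⟩, ⟨1, rfl⟩, ⟨2, rfl⟩, ⟨3, rfl⟩]
    · rintro ⟨j, rfl⟩
      fin_cases j <;> simp
  have h1 : (1 : AA i) ∈ Submodule.span k (Set.range (YY i)) :=
    Submodule.subset_span ⟨0, by simp [YY]⟩
  rw [eq_top_iff, ← tower_top (tow_AA i h2) h1 hgen]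
  refine (towerN_le (YY i) le_rfl _ _ _ _).trans ?_
  apply Submodule.span_mono
  rintro _ ⟨⟨s0, s1, s2, s3, α⟩, rfl⟩
  refine ⟨![2 * α 0 + s0, 2 * α 1 + s1, 2 * α 2 + s2, 2 * α 3 + s3], ?_⟩
  have hα : hf ![2 * α 0 + s0, 2 * α 1 + s1, 2 * α 2 + s2, 2 * α 3 + s3] = α := by
    funext j
    have b0 := s0.isLt
    have b1 := s1.isLt
    have b2 := s2.isLt
    have b3 := s3.isLt
    fin_cases j
    · show (2 * α 0 + s0) / 2 = α 0; omega
    · show (2 * α 1 + s1) / 2 = α 1; omega
    · show (2 * α 2 + s2) / 2 = α 2; omega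
    · show (2 * α 3 + s3) / 2 = α 3; omega
  have e : ∀ (x : ℕ) (s : Fin 2), (2 * x + s) % 2 = s := by
    intro x s; have := s.isLt; omega
  rw [BB_eq, hα]
  simp only [opr, Matrix.cons_val_zero, Matrix.cons_val_one, Matrix.cons_val, e]

/-- the basis of standard monomials -/
noncomputable def bas : Module.Basis (Fin 4 → ℕ) k (AA i) :=
  Module.Basis.mk (linearIndependent_BB i) (span_BB i h2).ge

theorem bas_apply (n : Fin 4 → ℕ) : bas i h2 n = BB i n := by
  exact Module.Basis.mk_apply (linearIndependent_BB i) (span_BB i h2).ge n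

end span

end Pool.Agent.Y586.G2
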