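import Pool.Agent.Y586.G2.D5
import Pool.Agent.W506.PM.R

/-!
# The graded pieces, and the regular sequence `a^2, c^2`
-/

universe u

namespace Pool.Agent.Y586.G2

open Pool.Agent.W506.PM (GAlg gx gy ggr IsConnectedGraded gx_mem gy_mem deg4 mon mem_mon card_mon
  shift_inj shift_reg)

variable {k : Type u} [Field k] (i : k) (h2 : (2 : k) ≠ 0)

/-- the grading of our algebra -/
noncomputable abbrev gA : ℕ → Submodule k (AA i) := ggr k mu1 (MM i)

theorem gmul {d e : ℕ} {x y : AA i} (hx : x ∈ gA i d) (hy : y ∈ gA i e) :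
    x * y ∈ gA i (d + e) := SetLike.mul_mem_graded hx hy

theorem gpow {d : ℕ} {x : AA i} (hx : x ∈ gA i d) (n : ℕ) : x ^ n ∈ gA i (n * d) := by
  simpa using SetLike.pow_mem_graded (A := gA i) n hx

theorem YY_mem (α : Fin 4 → ℕ) :
    YY i α ∈ gA i (α 0 * 2 + (α 1 * 2 + (α 2 * 2 + α 3 * 2))) :=
  gmul i (gpow i (gy_mem mu1 (MM i) 0) _) (gmul i (gpow i (gy_mem mu1 (MM i) 1) _)
    (gmul i (gpow i (gy_mem mu1 (MM i) 2) _) (gpow i (gy_mem mu1 (MM i) 3) _)))

theorem BB_mem_gA (n : Fin 4 → ℕ) : BB i n ∈ gA i (deg4 n) := by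
  have h := gmul i (gpow i (gx_mem mu1 (MM i) 0) (n 0 % 2))
    (gmul i (gpow i (gx_mem mu1 (MM i) 1) (n 1 % 2))
      (gmul i (gpow i (gx_mem mu1 (MM i) 2) (n 2 % 2))
        (gmul i (gpow i (gx_mem mu1 (MM i) 3) (n 3 % 2)) (YY_mem i (hf n)))))
  have e : n 0 % 2 * 1 + (n 1 % 2 * 1 + (n 2 % 2 * 1 + (n 3 % 2 * 1
      + (hf n 0 * 2 + (hf n 1 * 2 + (hf n 2 * 2 + hf n 3 * 2)))))) = deg4 n := by
    simp only [hf, deg4]; omega
  rw [e] at h
  exact h

theorem proj_BB (e : ℕ) (j : Fin 4 → ℕ) : GradedAlgebra.proj (gA i) e (BB i j)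
    = if deg4 j = e then BB i j else 0 := by
  rw [GradedAlgebra.proj_apply]
  split_ifs with h
  · subst h
    exact DirectSum.decompose_of_mem_same _ (BB_mem_gA i j)
  · exact DirectSum.decompose_of_mem_ne _ (BB_mem_gA i j) h

theorem repr_eq_zero {d : ℕ} {x : AA i} (hx : x ∈ gA i d) (j : Fin 4 → ℕ)
    (hid : deg4 j ≠ d) : (bas i h2).repr x j = 0 := by
  have key : ((bas i h2).coord j).comp (GradedAlgebra.proj (gA i) d) = 0 := by
    apply (bas i h2).ext
    intro l
    rw [LinearMap.comp_apply, bas_apply, proj_BB]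
    split_ifs with h
    · rw [← bas_apply i h2, Module.Basis.coord_apply, Module.Basis.repr_self,
        Finsupp.single_eq_of_ne]
      · rfl
      · rintro rfl; exact hid h
    · rw [map_zero]; rfl
  have h1 := LinearMap.congr_fun key x
  rw [LinearMap.comp_apply, GradedAlgebra.proj_apply, DirectSum.decompose_of_mem_same _ hx] at h1
  exact h1

include h2

theorem gA_eq_span (d : ℕ) :
    gA i d = Submodule.span k (Set.range fun j : mon d => BB i j) := by
  apply le_antisymm
  · intro x hx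
    rw [← (bas i h2).linearCombination_repr x, Finsupp.linearCombination_apply, Finsupp.sum]
    apply Submodule.sum_mem
    intro j hj
    apply Submodule.smul_mem
    rw [bas_apply]
    have hid : deg4 j = d := by
      by_contra h
      exact (Finsupp.mem_support_iff.1 hj) (repr_eq_zero i h2 hx j h)
    exact Submodule.subset_span ⟨⟨j, (mem_mon d j).2 hid⟩, rfl⟩
  · rw [Submodule.span_le]
    rintro _ ⟨⟨j, hj⟩, rfl⟩
    have := BB_mem_gA i j
    rw [(mem_mon d j).1 hj] at this
    exact this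

theorem finrank_gA (d : ℕ) : Module.finrank k (gA i d) = (d + 3).choose 3 := by
  rw [gA_eq_span i h2, finrank_span_eq_card]
  · rw [Fintype.card_coe, card_mon]
  · exact (linearIndependent_BB i).comp _ Subtype.val_injective

theorem finite_gA (d : ℕ) : Module.Finite k (gA i d) := by
  rw [gA_eq_span i h2]
  exact Module.Finite.span_of_finite k (Set.finite_range _)

theorem conn_gA : IsConnectedGraded (gA i) where
  graded := inferInstance
  internal := DirectSum.Decomposition.isInternal _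
  connected := by rw [finrank_gA i h2]; rfl
  finite := finite_gA i h2

/-! ### the regular sequence -/

/-- shift by two in the first exponent -/
def sh0 (n : Fin 4 → ℕ) : Fin 4 → ℕ := ![n 0 + 2, n 1, n 2, n 3]
/-- shift by two in the third exponent -/
def sh2 (n : Fin 4 → ℕ) : Fin 4 → ℕ := ![n 0, n 1, n 2 + 2, n 3]

omit h2 in
theorem sh0_inj : Function.Injective sh0 := by
  intro n m h
  have h0 := congrFun h 0
  have h1 := congrFun h 1
  have h2 := congrFun h 2
  have h3 := congrFun h 3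
  simp only [sh0, Matrix.cons_val_zero, Matrix.cons_val_one, Matrix.cons_val] at h0 h1 h2 h3
  funext j
  fin_cases j
  · show n 0 = m 0; omega
  · exact h1
  · exact h2
  · exact h3

omit h2 in
theorem sh2_inj : Function.Injective sh2 := by
  intro n m h
  have h0 := congrFun h 0
  have h1 := congrFun h 1
  have h2 := congrFun h 2
  have h3 := congrFun h 3
  simp only [sh2, Matrix.cons_val_zero, Matrix.cons_val_one, Matrix.cons_val] at h0 h1 h2 h3
  funext j
  fin_cases j
  · exact h0
  · exact h1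
  · show n 2 = m 2; omega
  · exact h3

omit h2 in
theorem sh_sh (n m : Fin 4 → ℕ) (h : sh0 m = sh2 n) : ∃ n', n = sh0 n' := by
  have h0 := congrFun h 0
  simp only [sh0, sh2, Matrix.cons_val_zero] at h0
  refine ⟨![n 0 - 2, n 1, n 2, n 3], ?_⟩
  funext j
  fin_cases j
  · show n 0 = n 0 - 2 + 2; omega
  · rfl
  · rfl
  · rfl

theorem cen_left (l : Fin 4) (x y : AA i) :
    gy k mu1 (MM i) l * (x * y) = x * (gy k mu1 (MM i) l * y) := by
  rw [← mul_assoc, gy_central i h2, mul_assoc]

/-- multiplication by `a^2` -/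
theorem mul_BB0 (n : Fin 4 → ℕ) : ea i * ea i * BB i n = BB i (sh0 n) := by
  rw [← gy0_eq i h2, BB_eq, BB_eq]
  have e0 : sh0 n 0 % 2 = n 0 % 2 := by
    simp only [sh0, Matrix.cons_val_zero]; omega
  have e : hf (sh0 n) = hf n + Pi.single 0 1 := by
    funext j
    fin_cases j
    · show (n 0 + 2) / 2 = n 0 / 2 + 1; omega
    · rfl
    · rfl
    · rfl
  have e1 : sh0 n 1 = n 1 := rfl
  have e2 : sh0 n 2 = n 2 := rfl
  have e3 : sh0 n 3 = n 3 := rfl
  rw [e, ← gy_YY i h2, e0, e1, e2, e3, cen_left i h2, cen_left i h2, cen_left i h2,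
    cen_left i h2]

/-- multiplication by `c^2` -/
theorem mul_BB2 (n : Fin 4 → ℕ) : ec i * ec i * BB i n = BB i (sh2 n) := by
  rw [← gy2_eq i h2, BB_eq, BB_eq]
  have e2 : sh2 n 2 % 2 = n 2 % 2 := by
    simp only [sh2, Matrix.cons_val]; omega
  have e : hf (sh2 n) = hf n + Pi.single 2 1 := by
    funext j
    fin_cases j
    · rfl
    · rfl
    · show (n 2 + 2) / 2 = n 2 / 2 + 1; omega
    · rfl
  have e1 : sh2 n 1 = n 1 := rfl
  have e0 : sh2 n 0 = n 0 := rfl
  have e3 : sh2 n 3 = n 3 := rfl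
  rw [e, ← gy_YY i h2, e0, e1, e2, e3, cen_left i h2, cen_left i h2, cen_left i h2,
    cen_left i h2]

theorem a2_central (z : AA i) : ea i * ea i * z = z * (ea i * ea i) := by
  rw [← gy0_eq i h2, gy_central i h2]

theorem c2_central (z : AA i) : ec i * ec i * z = z * (ec i * ec i) := by
  rw [← gy2_eq i h2, gy_central i h2]

theorem reg_left : (∀ h : AA i, ea i * ea i * h = 0 → h = 0) ∧
    (∀ h h' : AA i, ec i * ec i * h = ea i * ea i * h' → ∃ h'', h = ea i * ea i * h'') := by
  constructor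
  · intro h hh
    exact shift_inj (bas i h2) (LinearMap.mulLeft k (ea i * ea i)) sh0 sh0_inj (fun _ => 1)
      (fun _ => one_ne_zero) (fun n => by
        rw [bas_apply, bas_apply, one_smul, LinearMap.mulLeft_apply, mul_BB0 i h2]) h hh
  · intro h h' hh
    exact shift_reg (bas i h2) (LinearMap.mulLeft k (ea i * ea i))
      (LinearMap.mulLeft k (ec i * ec i)) sh0 sh2 sh2_inj (fun _ => 1) (fun _ => 1)
      (fun _ => one_ne_zero) (fun _ => one_ne_zero)
      (fun n => by rw [bas_apply, bas_apply, one_smul, LinearMap.mulLeft_apply, mul_BB0 i h2])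
      (fun n => by rw [bas_apply, bas_apply, one_smul, LinearMap.mulLeft_apply, mul_BB2 i h2])
      sh_sh h h' hh

theorem reg_right : (∀ h : AA i, h * (ea i * ea i) = 0 → h = 0) ∧
    (∀ h h' : AA i, h * (ec i * ec i) = h' * (ea i * ea i) → ∃ h'', h = h'' * (ea i * ea i)) := by
  constructor
  · intro h hh
    rw [← a2_central i h2] at hh
    exact (reg_left i h2).1 h hh
  · intro h h' hh
    rw [← a2_central i h2, ← c2_central i h2] at hh
    obtain ⟨z, hz⟩ := (reg_left i h2).2 h h' hh
    exact ⟨z, by rw [hz, a2_central i h2]⟩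

end Pool.Agent.Y586.G2
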