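import Pool.Agent.Y586.G2.D1

/-!
# The composite of the two middle maps vanishes
-/

universe u

namespace Pool.Agent.Y586.G2

variable {k : Type u} [Field k] {E : Type u} [Ring E] [Algebra k E]

/-- the factors -/
def mE (i : k) (a b c d : E) : Fin 6 → Fin 4 → E :=
  ![![c, 0, a, 0], ![-a, b, 0, 0], ![0, 0, -c, d],
    ![-((5 + i) • a) - b + d, -a, (1 - i) • c, a],
    ![-((4 + 2 * i) • a) - b, -a, (4 - 2 * i) • c + d, c],
    ![(3 + i) • a + b, a + c, b + (1 + i) • c, 0]]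

/-- the scalar matrix `G` -/
def GG (i : k) : Fin 6 → Fin 6 → k :=
  ![![14 * i, 1 + 3 * i, 1 - 3 * i, 2 + 4 * i, -2 - 9 * i, -2 + 4 * i],
    ![1 + 3 * i, 4 + 2 * i, 0, 0, 0, 2 + i],
    ![1 - 3 * i, 0, -4 + 2 * i, 2 - i, -2 + i, 0],
    ![2 + 4 * i, 0, 2 - i, -1 + 3 * i, 1 - 3 * i, 0],
    ![-2 - 9 * i, 0, -2 + i, 1 - 3 * i, -1 + 3 * i, 0],
    ![-2 + 4 * i, 2 + i, 0, 0, 0, 1 + 3 * i]]

/-- five times the inverse of `G` -/
def HH (i : k) : Fin 6 → Fin 6 → k :=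
  ![![0, 0, 0, i, i, 0], ![0, 1 - i, 0, 0, 0, i], ![0, 0, -1 - i, -i, 0, 0],
    ![i, 0, -i, -2 - 2 * i, -1 + i, 1 - i], ![i, 0, 0, -1 + i, 2 * i, 1 - i],
    ![0, i, 0, 1 - i, 1 - i, -2 * i]]

theorem HH_GG (i : k) (hi : i ^ 2 = -1) (s j : Fin 6) :
    ∑ l, HH i s l * GG i l j = if s = j then 5 else 0 := by
  fin_cases s <;> fin_cases j <;> simp [Fin.sum_univ_six, HH, GG] <;> grind

theorem comp_zero (i : k) (hi : i ^ 2 = -1) {a b c d : E} (h : Rels i a b c d) (j l : Fin 4) :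
    ∑ s, (∑ s', GG i s s' • mE i a b c d s' j) * mE i a b c d s l = 0 := by
  have hbb := h.bb
  have hca := h.ca
  have hdd := h.dd
  have hda := h.da
  have hdc := h.dc
  have hcb := h.cb
  fin_cases j <;> fin_cases l <;>
    simp [Fin.sum_univ_six, GG, mE, mul_sub, sub_mul, mul_add, add_mul, hbb, hca, hdd, hda,
      hdc, hcb]
  all_goals match_scalars
  all_goals grind

end Pool.Agent.Y586.G2
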