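import Pool.Agent.Y586.G2.D6
import Pool.Agent.Y586.G2.D7
import Pool.Agent.W506.PM.H1
import Pool.Agent.W506.PM.K1
import Pool.Agent.W506.PM.OP
import Pool.Agent.W506.PM.K3
import Pool.Agent.W655.PM.Eul

/-!
# The Koszul complexes of the algebra are exact on both sides
-/

universe u

namespace Pool.Agent.Y586.G2

open Pool.Agent.W506.PM (GAlg gx gy ggr IsConnectedGraded gx_mem gy_mem rowL rowL_mul IsPres.op
  ex1_of_pres ex34 LeftKos opGr mem_opGr finrank_opGr gen1)

variable {k : Type u} [Field k]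

section

variable (i : k) (h2 : (2 : k) ≠ 0) (h5 : (5 : k) ≠ 0) (hi : i ^ 2 = -1)

/-- the generators -/
noncomputable abbrev gg : Fin 4 → AA i := gx k mu1 (MM i)

/-- the matrix `m` -/
noncomputable def mm (s : Fin 6) (l : Fin 4) : AA i := mE i (ea i) (eb i) (ec i) (ed i) s l

/-- the matrix `m'` -/
noncomputable def mm' (s : Fin 6) (l : Fin 4) : AA i := ∑ s', GG i s s' • mm i s' l

theorem rowL_eq (s : Fin 6) (l : Fin 4) : rowL (gg i) (rr i) s l = mm i s l := by
  fin_cases s <;> fin_cases l <;>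
    simp [rowL, mm, mE, rr, Fin.sum_univ_four] <;> (try abel) <;> (try module)

theorem rr_symm (s : Fin 6) (j l : Fin 4) : rr i s j l = rr i s l j := by
  fin_cases s <;> fin_cases j <;> fin_cases l <;> simp [rr]

theorem rowR_eq (s : Fin 6) (l : Fin 4) :
    rowL (fun j => MulOpposite.op (gg i j)) (fun s j l => rr i s l j) s l
      = MulOpposite.op (mm i s l) := by
  rw [← rowL_eq, rowL, rowL, Finset.op_sum]
  apply Finset.sum_congr rfl
  intro j _
  rw [MulOpposite.op_smul, rr_symm]

include h2 in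
theorem mm_x (s : Fin 6) : ∑ j, mm i s j * gg i j = 0 := by
  have := rowL_mul (isPres_AA i h2) s
  simpa only [rowL_eq] using this

include h2 in
theorem x_mm (s : Fin 6) : ∑ j, gg i j * mm i s j = 0 := by
  have := rowL_mul (isPres_AA i h2).op s
  simp only [rowR_eq, ← MulOpposite.op_mul, ← Finset.op_sum] at this
  exact MulOpposite.op_injective this

include h2 in
theorem x_mm' (s : Fin 6) : ∑ j, gg i j * mm' i s j = 0 := by
  simp only [mm', Finset.mul_sum, mul_smul_comm]
  rw [Finset.sum_comm]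
  apply Finset.sum_eq_zero
  intro s' _
  rw [← Finset.smul_sum, x_mm i h2, smul_zero]

include h2 hi in
theorem mm'_mm (j l : Fin 4) : ∑ s, mm' i s j * mm i s l = 0 :=
  comp_zero i hi (rels_AA i h2) j l

include h2 in
theorem exL1 (f : Fin 4 → AA i) (hf : ∑ j, f j * gg i j = 0) :
    ∃ g : Fin 6 → AA i, ∀ j, f j = ∑ s, g s * mm i s j := by
  obtain ⟨g, hg⟩ := ex1_of_pres (isPres_AA i h2) f hf
  refine ⟨g, fun j => ?_⟩
  rw [hg j]
  simp only [rowL_eq]

include h2 hi h5 in
theorem exR1 (b : Fin 4 → AA i) (hb : ∑ j, gg i j * b j = 0) :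
    ∃ c : Fin 6 → AA i, ∀ j, b j = ∑ s, mm' i s j * c s := by
  obtain ⟨g, hg⟩ := ex1_of_pres (isPres_AA i h2).op (fun j => MulOpposite.op (b j)) (by
    simp only [← MulOpposite.op_mul, ← Finset.op_sum]
    rw [show (∑ j, gx k mu1 (MM i) j * b j) = 0 from hb, MulOpposite.op_zero])
  have hn : ∀ j, b j = ∑ s, mm i s j * (g s).unop := by
    intro j
    have := congrArg MulOpposite.unop (hg j)
    simpa only [rowR_eq, MulOpposite.unop_op, Finset.unop_sum, MulOpposite.unop_mul] using this
  have hH : ∀ s j, mm i s j = ∑ l, ((5 : k)⁻¹ * HH i s l) • mm' i l j := by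
    intro s j
    simp only [mm', Finset.smul_sum, smul_smul]
    rw [Finset.sum_comm]
    simp only [← Finset.sum_smul, mul_assoc, ← Finset.mul_sum]
    simp only [HH_GG i hi]
    rw [Finset.sum_eq_single s]
    · rw [if_pos rfl, inv_mul_cancel₀ h5, one_smul]
    · intro l _ hl
      rw [if_neg (Ne.symm hl), mul_zero, zero_smul]
    · simp
  refine ⟨fun l => ∑ s, ((5 : k)⁻¹ * HH i s l) • (g s).unop, fun j => ?_⟩
  rw [hn j]
  simp only [hH, Finset.sum_mul, Finset.mul_sum, smul_mul_assoc, mul_smul_comm]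
  rw [Finset.sum_comm]

include h2 in
theorem x_X (j : Fin 4) : gg i j * (gg i 0 * gg i 0)
    = (fun _ => (1 : k)) j • (gg i 0 * gg i 0 * gg i j) := by
  rw [one_smul]
  exact (a2_central i h2 _).symm

include h2 in
theorem XZ_comm : gg i 0 * gg i 0 * (gg i 2 * gg i 2) = gg i 2 * gg i 2 * (gg i 0 * gg i 0) :=
  a2_central i h2 _

include h2 hi h5 in
theorem exL34 :
    (∀ f : Fin 4 → AA i, (∀ s, ∑ j, f j * mm' i s j = 0) →
      ∃ h : AA i, ∀ j, f j = h * gg i j) ∧
    (∀ h : AA i, (∀ j, h * gg i j = 0) → h = 0) :=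
  ex34 (gg i) (mm' i) (exR1 i h2 h5 hi) (fun _ => (1 : k)) (x_X i h2) (XZ_comm i h2)
    (reg_right i h2).1 (reg_right i h2).2

include h2 in
theorem exR34 : (∀ f : Fin 4 → (AA i)ᵐᵒᵖ,
      (∀ s, ∑ j, f j * MulOpposite.op (mm i s j) = 0) →
      ∃ h : (AA i)ᵐᵒᵖ, ∀ j, f j = h * MulOpposite.op (gg i j)) ∧
    (∀ h : (AA i)ᵐᵒᵖ, (∀ j, h * MulOpposite.op (gg i j) = 0) → h = 0) := by
  refine ex34 (k := k) (fun j => MulOpposite.op (gg i j))
    (fun s j => MulOpposite.op (mm i s j)) ?_ (fun _ => (1 : k)) ?_ ?_ ?_ ?_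
  · intro b hb
    obtain ⟨g, hg⟩ := exL1 i h2 (fun j => (b j).unop) (by
      have := congrArg MulOpposite.unop hb
      simpa only [Finset.unop_sum, MulOpposite.unop_mul, MulOpposite.unop_op,
        MulOpposite.unop_zero] using this)
    refine ⟨fun s => MulOpposite.op (g s), fun j => ?_⟩
    have := congrArg MulOpposite.op (hg j)
    simpa only [Finset.op_sum, MulOpposite.op_mul, MulOpposite.op_unop] using this
  · intro j
    have h1 := a2_central i h2 (gg i j)
    have := congrArg MulOpposite.op h1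
    rw [one_smul]
    simpa only [MulOpposite.op_mul, MulOpposite.op_smul, mul_assoc] using this
  · have := congrArg MulOpposite.op (XZ_comm i h2).symm
    simpa only [MulOpposite.op_mul] using this
  · intro h hh
    have := congrArg MulOpposite.unop hh
    simp only [MulOpposite.unop_mul, MulOpposite.unop_op, MulOpposite.unop_zero] at this
    exact MulOpposite.unop_injective ((reg_left i h2).1 _ this)
  · intro h h' hh
    have := congrArg MulOpposite.unop hh
    simp only [MulOpposite.unop_mul, MulOpposite.unop_op] at this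
    obtain ⟨z, hz⟩ := (reg_left i h2).2 _ _ this
    refine ⟨MulOpposite.op z, ?_⟩
    apply MulOpposite.unop_injective
    simpa only [MulOpposite.unop_mul, MulOpposite.unop_op] using hz

theorem mm_mem (s : Fin 6) (l : Fin 4) : mm i s l ∈ gA i 1 := by
  rw [← rowL_eq, rowL]
  exact Submodule.sum_mem _ fun j _ => Submodule.smul_mem _ _ (gx_mem _ _ j)

theorem mm'_mem (s : Fin 6) (l : Fin 4) : mm' i s l ∈ gA i 1 :=
  Submodule.sum_mem _ fun j _ => Submodule.smul_mem _ _ (mm_mem i j l)

include h2 h5 hi in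
theorem leftKos : LeftKos (gg i) (mm i) (mm' i) :=
  Pool.Agent.W655.PM.eul k (AA i) (gA i) (gg i) (mm i) (mm' i)
    (conn_gA i h2) (finrank_gA i h2) (gx_mem _ _) (mm_mem i) (mm'_mem i)
    (fun n a ha => gen1 (conn_gA i h2) _ (adjoin_AA i h2) (gx_mem _ _) n a ha)
    (mm_x i h2) (mm'_mm i h2 hi) (x_mm' i h2) (exL1 i h2)
    (exL34 i h2 h5 hi).1 (exL34 i h2 h5 hi).2

include h2 h5 hi in
theorem rightKos :
    LeftKos (fun j => MulOpposite.op (gg i j)) (fun s j => MulOpposite.op (mm' i s j))
      (fun s j => MulOpposite.op (mm i s j)) := by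
  apply Pool.Agent.W655.PM.eul k (AA i)ᵐᵒᵖ (opGr (gA i)) _ _ _
    (conn_gA i h2).op
  · intro n
    rw [finrank_opGr, finrank_gA i h2]
  · intro j; rw [mem_opGr]; exact gx_mem _ _ j
  · intro s j; rw [mem_opGr]; exact mm'_mem i s j
  · intro s j; rw [mem_opGr]; exact mm_mem i s j
  · intro n a ha
    exact gen1 (conn_gA i h2).op _ (isPres_AA i h2).op.gen
      (fun j => by rw [mem_opGr]; exact gx_mem _ _ j) n a ha
  · intro s
    have := congrArg MulOpposite.op (x_mm' i h2 s)
    simpa only [Finset.op_sum, MulOpposite.op_mul, MulOpposite.op_zero] using this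
  · intro j l
    have := congrArg MulOpposite.op (mm'_mm i h2 hi l j)
    simpa only [Finset.op_sum, MulOpposite.op_mul, MulOpposite.op_zero] using this
  · intro s
    have := congrArg MulOpposite.op (mm_x i h2 s)
    simpa only [Finset.op_sum, MulOpposite.op_mul, MulOpposite.op_zero] using this
  · intro f hf
    obtain ⟨g, hg⟩ := exR1 i h2 h5 hi (fun j => (f j).unop) (by
      have := congrArg MulOpposite.unop hf
      simpa only [Finset.unop_sum, MulOpposite.unop_mul, MulOpposite.unop_op,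
        MulOpposite.unop_zero] using this)
    refine ⟨fun s => MulOpposite.op (g s), fun j => ?_⟩
    have := congrArg MulOpposite.op (hg j)
    simpa only [Finset.op_sum, MulOpposite.op_mul, MulOpposite.op_unop] using this
  · exact (exR34 i h2).1
  · exact (exR34 i h2).2

end

end Pool.Agent.Y586.G2
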