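import Pool.Agent.Y586.G2.D1

/-!
# The two points
-/

universe u

namespace Pool.Agent.Y586.G2

open Pool.Agent.W506.PM (Zero)
open scoped LinearAlgebra.Projectivization

variable {k : Type u} [Field k] (i : k)

theorem zero_iff (p q : Fin 4 → k) : Zero (rr i) p q ↔
    (p 0 * q 2 + p 2 * q 0 = 0 ∧ p 1 * q 1 = p 0 * q 0 ∧ p 3 * q 3 = p 2 * q 2 ∧
      p 0 * q 3 + p 3 * q 0 = p 0 * q 1 + p 1 * q 0 + (5 + i) * (p 0 * q 0)
        - (1 - i) * (p 2 * q 2) ∧
      p 2 * q 3 + p 3 * q 2 = p 0 * q 1 + p 1 * q 0 + (4 + 2 * i) * (p 0 * q 0)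
        - (4 - 2 * i) * (p 2 * q 2) ∧
      p 1 * q 2 + p 2 * q 1 = -(p 0 * q 1 + p 1 * q 0) - (3 + i) * (p 0 * q 0)
        - (1 + i) * (p 2 * q 2)) := by
  constructor
  · intro h
    have h0 := h 0
    have h1 := h 1
    have h2 := h 2
    have h3 := h 3
    have h4 := h 4
    have h5 := h 5
    simp [Fin.sum_univ_four, rr] at h0 h1 h2 h3 h4 h5
    refine ⟨?_, ?_, ?_, ?_, ?_, ?_⟩
    · linear_combination h0
    · linear_combination h1
    · linear_combination h2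
    · linear_combination h3
    · linear_combination h4
    · linear_combination h5
  · rintro ⟨h0, h1, h2, h3, h4, h5⟩ s
    fin_cases s
    · simp [Fin.sum_univ_four, rr]; linear_combination h0
    · simp [Fin.sum_univ_four, rr]; linear_combination h1
    · simp [Fin.sum_univ_four, rr]; linear_combination h2
    · simp [Fin.sum_univ_four, rr]; linear_combination h3
    · simp [Fin.sum_univ_four, rr]; linear_combination h4
    · simp [Fin.sum_univ_four, rr]; linear_combination h5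

theorem zero_symm {p q : Fin 4 → k} (h : Zero (rr i) p q) : Zero (rr i) q p := by
  rw [zero_iff] at h ⊢
  obtain ⟨h0, h1, h2, h3, h4, h5⟩ := h
  refine ⟨?_, ?_, ?_, ?_, ?_, ?_⟩
  · linear_combination h0
  · linear_combination h1
  · linear_combination h2
  · linear_combination h3
  · linear_combination h4
  · linear_combination h5

variable {i} (h2 : (2 : k) ≠ 0) (hi : i ^ 2 = -1)

include h2 hi

/-- The two cubics have no common zero with nonzero coordinates `G`, `H`. -/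
theorem cubics {s G H : k} (hG : G ≠ 0)
    (c1 : H * s ^ 2 - G * (s + (3 + i) * G - (1 + i) * H) ^ 2 = 4 * G ^ 2 * H)
    (c2 : H * (s + (5 + i) * G + (1 - i) * H) ^ 2
      - G * (s + (4 + 2 * i) * G + (4 - 2 * i) * H) ^ 2 = -(4 * G * H ^ 2)) : False := by
  have h4 : (4 : k) ≠ 0 := by
    have : (4 : k) = 2 * 2 := by norm_num
    rw [this]; exact mul_ne_zero h2 h2
  have hL : 4 * (H - G) ^ 6 = 0 := by
    linear_combination (-(4 * ((1 - i) * H + (1 + i) * G) ^ 2 * (H - G))) * c1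
      + ((H - G) * (2 * ((1 - i) * H + (1 + i) * G)) * s
          - ((H * ((5 + i) * G + (1 - i) * H) ^ 2 - G * ((4 + 2 * i) * G + (4 - 2 * i) * H) ^ 2
              + 4 * G * H ^ 2) - (-(G * ((3 + i) * G - (1 + i) * H) ^ 2) - 4 * G ^ 2 * H))
          - 2 * G * ((3 + i) * G - (1 + i) * H) * (2 * ((1 - i) * H + (1 + i) * G)))
        * (c2 - c1)
      + ((-34)*G*H^5 + (32)*G*H^5*i + (-10)*G*H^5*i^2 + (59)*G^2*H^4 + (-52)*G^2*H^4*i + (31)*G^2*H^4*i^2 + (-60)*G^3*H^3 + (-44)*G^3*H^3*i^2 + (59)*G^4*H^2 + (52)*G^4*H^2*i + (31)*G^4*H^2*i^2 + (-34)*G^5*H + (-32)*G^5*H*i + (-10)*G^5*H*i^2 + (4)*G^6*i + (1)*G^6*i^2 + (5)*G^6 + (-4)*H^6*i + (1)*H^6*i^2 + (5)*H^6) * hi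
  have hH : H = G := sub_eq_zero.1 (pow_eq_zero_iff (by norm_num : (6 : ℕ) ≠ 0)
    |>.1 ((mul_eq_zero.1 hL).resolve_left h4))
  subst hH
  have s1 : 4 * H ^ 2 * (s + 2 * H) = 0 := by linear_combination (-1) * c1
  have s2 : 4 * H ^ 2 * (s + 6 * H) = 0 := by linear_combination (-1) * c2
  have hH2 : H ^ 2 ≠ 0 := pow_ne_zero _ hG
  have t1 := (mul_eq_zero.1 s1).resolve_left (mul_ne_zero h4 hH2)
  have t2 := (mul_eq_zero.1 s2).resolve_left (mul_ne_zero h4 hH2)
  have : 4 * H = 0 := by linear_combination t2 - t1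
  exact mul_ne_zero h4 hG this

/-- no solutions with `p_0 q_0 p_2 q_2 ≠ 0` -/
theorem no_sol {g h p1 p3 q1 q3 : k} (hg : g ≠ 0) (hh : h ≠ 0)
    (e1 : p1 * q1 = g * g) (e2 : p3 * q3 = -(h * h))
    (e3 : g * q3 + p3 * g = g * q1 + p1 * g + (5 + i) * (g * g) + (1 - i) * (h * h))
    (e4 : h * q3 - p3 * h = g * q1 + p1 * g + (4 + 2 * i) * (g * g) + (4 - 2 * i) * (h * h))
    (e5 : h * q1 - p1 * h = -(g * q1 + p1 * g) - (3 + i) * (g * g) + (1 + i) * (h * h)) :
    False := by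
  have hG : g ^ 2 ≠ 0 := pow_ne_zero _ hg
  refine cubics h2 hi (s := g * (p1 + q1)) (G := g ^ 2) (H := h ^ 2) hG ?_ ?_
  · have a1 : h * (q1 - p1) = -(g * (p1 + q1)) - (3 + i) * g ^ 2 + (1 + i) * h ^ 2 := by
      linear_combination e5
    have a2 : (g * (p1 + q1) + (3 + i) * g ^ 2 - (1 + i) * h ^ 2) ^ 2 = h ^ 2 * (q1 - p1) ^ 2 := by
      rw [show g * (p1 + q1) + (3 + i) * g ^ 2 - (1 + i) * h ^ 2 = -(h * (q1 - p1)) by
        rw [a1]; ring]
      ring
    rw [a2]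
    linear_combination 4 * g ^ 2 * h ^ 2 * e1
  · have a1 : g * (p3 + q3) = g * (p1 + q1) + (5 + i) * g ^ 2 + (1 - i) * h ^ 2 := by
      linear_combination e3
    have a2 : h * (q3 - p3) = g * (p1 + q1) + (4 + 2 * i) * g ^ 2 + (4 - 2 * i) * h ^ 2 := by
      linear_combination e4
    rw [← a1, ← a2]
    linear_combination 4 * g ^ 2 * h ^ 2 * e2

theorem key {p q : Fin 4 → k} (hp : p ≠ 0) (hq : q ≠ 0) (h : Zero (rr i) p q) :
    p 0 = 0 ∧ p 2 = 0 ∧ q 0 = 0 ∧ q 2 = 0 ∧ ((p 1 = 0 ∧ q 3 = 0) ∨ (p 3 = 0 ∧ q 1 = 0)) := by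
  have hz := h
  rw [zero_iff] at h
  obtain ⟨e0, e1, e2, e3, e4, e5⟩ := h
  have hne : ∀ {v : Fin 4 → k}, v ≠ 0 → v 0 = 0 → v 1 = 0 → v 2 = 0 → v 3 = 0 → False := by
    intro v hv h0 h1 h2 h3
    apply hv
    funext j
    fin_cases j
    exacts [h0, h1, h2, h3]
  have h4 : (4 : k) ≠ 0 := by
    have : (4 : k) = 2 * 2 := by norm_num
    rw [this]; exact mul_ne_zero h2 h2
  have hfin : p 0 = 0 → p 2 = 0 → q 0 = 0 → q 2 = 0 →
      ((p 1 = 0 ∧ q 3 = 0) ∨ (p 3 = 0 ∧ q 1 = 0)) := by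
    intro a0 a2 b0 b2
    rw [a0, zero_mul] at e1
    rw [a2, zero_mul] at e2
    rcases mul_eq_zero.1 e1 with h1 | h1 <;> rcases mul_eq_zero.1 e2 with h3 | h3
    · exact (hne hp a0 h1 a2 h3).elim
    · exact Or.inl ⟨h1, h3⟩
    · exact Or.inr ⟨h3, h1⟩
    · exact (hne hq b0 h1 b2 h3).elim
  -- the case `p_0 = p_2 = 0`
  have caseA : ∀ {p q : Fin 4 → k}, p ≠ 0 → q ≠ 0 → Zero (rr i) p q → p 0 = 0 → p 2 = 0 →
      q 0 = 0 ∧ q 2 = 0 := by
    intro p q hp hq h a0 a2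
    rw [zero_iff] at h
    obtain ⟨e0, e1, e2, e3, e4, e5⟩ := h
    simp only [a0, a2, zero_mul, mul_zero, add_zero, zero_add, sub_zero] at e0 e1 e2 e3 e4 e5
    by_cases p1 : p 1 = 0
    · have p3 : p 3 ≠ 0 := fun h3 => hne hp a0 p1 a2 h3
      rw [p1, zero_mul] at e3 e4
      exact ⟨(mul_eq_zero.1 e3).resolve_left p3, (mul_eq_zero.1 e4).resolve_left p3⟩
    · have q1 : q 1 = 0 := (mul_eq_zero.1 e1).resolve_left p1
      have hs : q 2 = -q 0 := by
        apply mul_left_cancel₀ p1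
        rw [e5]; ring
      by_cases p3 : p 3 = 0
      · rw [p3, zero_mul] at e3
        have := (mul_eq_zero.1 e3.symm).resolve_left p1
        exact ⟨this, by rw [hs, this, neg_zero]⟩
      · have q3 : q 3 = 0 := (mul_eq_zero.1 e2).resolve_left p3
        rw [hs] at e4
        have : 2 * (p 3 * q 0) = 0 := by linear_combination e3 - e4
        have := (mul_eq_zero.1 ((mul_eq_zero.1 this).resolve_left h2)).resolve_left p3
        exact ⟨this, by rw [hs, this, neg_zero]⟩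
  by_cases hA : p 0 = 0 ∧ p 2 = 0
  · obtain ⟨b0, b2⟩ := caseA hp hq hz hA.1 hA.2
    exact ⟨hA.1, hA.2, b0, b2, hfin hA.1 hA.2 b0 b2⟩
  by_cases hB : q 0 = 0 ∧ q 2 = 0
  · obtain ⟨b0, b2⟩ := caseA hq hp (zero_symm i hz) hB.1 hB.2
    exact ⟨b0, b2, hB.1, hB.2, hfin b0 b2 hB.1 hB.2⟩
  exfalso
  have hi1 : (1 - i) ≠ 0 := by
    intro h
    have : i = 1 := by linear_combination -h
    rw [this] at hi
    apply h2; linear_combination hi
  have hi2 : (1 + i) ≠ 0 := by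
    intro h
    have : i = -1 := by linear_combination h
    rw [this] at hi
    apply h2; linear_combination hi
  by_cases a0 : p 0 = 0
  · have a2 : p 2 ≠ 0 := fun h => hA ⟨a0, h⟩
    rw [a0, zero_mul, zero_add] at e0
    have b0 : q 0 = 0 := (mul_eq_zero.1 e0).resolve_left a2
    have b2 : q 2 ≠ 0 := fun h => hB ⟨b0, h⟩
    simp only [a0, b0, zero_mul, mul_zero, add_zero, zero_add, zero_sub] at e3
    exact mul_ne_zero hi1 (mul_ne_zero a2 b2) (neg_eq_zero.1 e3.symm)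
  by_cases a2 : p 2 = 0
  · rw [a2, zero_mul, add_zero] at e0
    have b2 : q 2 = 0 := (mul_eq_zero.1 e0).resolve_left a0
    have b0 : q 0 ≠ 0 := fun h => hB ⟨h, b2⟩
    simp only [a2, b2, zero_mul, mul_zero, add_zero, zero_add, sub_zero] at e4 e5
    apply mul_ne_zero hi2 (mul_ne_zero a0 b0)
    linear_combination (-1) * e4 - e5
  have b0 : q 0 ≠ 0 := by
    intro b0
    rw [b0, mul_zero, add_zero] at e0
    exact hB ⟨b0, (mul_eq_zero.1 e0).resolve_left a0⟩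
  -- scale `q`
  obtain ⟨c, hc⟩ : ∃ c : k, c * q 0 = p 0 := ⟨p 0 * (q 0)⁻¹, by field_simp⟩
  have hc0 : c ≠ 0 := by rintro rfl; exact a0 (by rw [← hc, zero_mul])
  have hc2 : c * q 2 = -p 2 := by
    apply mul_left_cancel₀ a0
    linear_combination c * e0 - p 2 * hc
  refine no_sol h2 hi (g := p 0) (h := p 2) (p1 := p 1) (p3 := p 3) (q1 := c * q 1)
    (q3 := c * q 3) a0 a2 ?_ ?_ ?_ ?_ ?_
  · linear_combination c * e1 + p 0 * hc
  · linear_combination c * e2 + p 2 * hc2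
  · linear_combination c * e3 + (-p 3 + p 1 + (5 + i) * p 0) * hc - (1 - i) * p 2 * hc2
  · linear_combination c * e4 + (p 1 + (4 + 2 * i) * p 0) * hc
      - ((4 - 2 * i) * p 2 + p 3) * hc2
  · linear_combination c * e5 - (p 1 + (3 + i) * p 0) * hc - ((1 + i) * p 2 + p 1) * hc2

theorem uniq {p q q' : Fin 4 → k} (hp : p ≠ 0) (hq : q ≠ 0) (hq' : q' ≠ 0)
    (h : Zero (rr i) p q) (h' : Zero (rr i) p q') : ∃ c : k, q' = c • q := by
  obtain ⟨a0, a2, b0, b2, hh⟩ := key h2 hi hp hq h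
  obtain ⟨-, -, c0, c2, hh'⟩ := key h2 hi hp hq' h'
  have hne : ∀ {v : Fin 4 → k}, v ≠ 0 → v 0 = 0 → v 1 = 0 → v 2 = 0 → v 3 = 0 → False := by
    intro v hv h0 h1 h2 h3
    apply hv
    funext j
    fin_cases j
    exacts [h0, h1, h2, h3]
  rcases hh with ⟨a1, b3⟩ | ⟨a3, b1⟩ <;> rcases hh' with ⟨a1', c3⟩ | ⟨a3', c1⟩
  · have hb1 : q 1 ≠ 0 := fun b1 => hne hq b0 b1 b2 b3
    refine ⟨q' 1 * (q 1)⁻¹, ?_⟩
    funext j
    fin_cases j
    · show q' 0 = _ * q 0; rw [b0, c0, mul_zero]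
    · show q' 1 = _ * q 1; field_simp
    · show q' 2 = _ * q 2; rw [b2, c2, mul_zero]
    · show q' 3 = _ * q 3; rw [b3, c3, mul_zero]
  · exact (hne hp a0 a1 a2 a3').elim
  · exact (hne hp a0 a1' a2 a3).elim
  · have hb3 : q 3 ≠ 0 := fun b3 => hne hq b0 b1 b2 b3
    refine ⟨q' 3 * (q 3)⁻¹, ?_⟩
    funext j
    fin_cases j
    · show q' 0 = _ * q 0; rw [b0, c0, mul_zero]
    · show q' 1 = _ * q 1; rw [b1, c1, mul_zero]
    · show q' 2 = _ * q 2; rw [b2, c2, mul_zero]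
    · show q' 3 = _ * q 3; field_simp

theorem card_pts :
    Nat.card {P : ℙ k (Fin 4 → k) // ∃ q : Fin 4 → k, q ≠ 0 ∧ Zero (rr i) P.rep q} = 2 := by
  have hs1 : (Pi.single 1 1 : Fin 4 → k) ≠ 0 := by
    intro h; have := congrFun h 1; simp at this
  have hs3 : (Pi.single 3 1 : Fin 4 → k) ≠ 0 := by
    intro h; have := congrFun h 3; simp at this
  have hset : {P : ℙ k (Fin 4 → k) | ∃ q : Fin 4 → k, q ≠ 0 ∧ Zero (rr i) P.rep q}
      = {Projectivization.mk k _ hs1, Projectivization.mk k _ hs3} := by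
    ext P
    simp only [Set.mem_setOf_eq, Set.mem_insert_iff, Set.mem_singleton_iff]
    constructor
    · rintro ⟨q, hq, hz⟩
      obtain ⟨a0, a2, b0, b2, hh⟩ := key h2 hi P.rep_nonzero hq hz
      rcases hh with ⟨a1, -⟩ | ⟨a3, -⟩
      · right
        rw [← P.mk_rep]
        rw [Projectivization.mk_eq_mk_iff']
        refine ⟨P.rep 3, ?_⟩
        funext j
        fin_cases j
        · simp [a0]
        · simp [a1]
        · simp [a2]
        · simp
      · left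
        rw [← P.mk_rep]
        rw [Projectivization.mk_eq_mk_iff']
        refine ⟨P.rep 1, ?_⟩
        funext j
        fin_cases j
        · simp [a0]
        · simp
        · simp [a2]
        · simp [a3]
    · have hrep : ∀ (v : Fin 4 → k) (hv : v ≠ 0), ∃ c : k,
          (Projectivization.mk k v hv).rep = c • v := by
        intro v hv
        obtain ⟨a, ha⟩ := Projectivization.exists_smul_eq_mk_rep k v hv
        exact ⟨a, ha.symm⟩
      rintro (rfl | rfl)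
      · obtain ⟨c, hc⟩ := hrep _ hs1
        refine ⟨Pi.single 3 1, hs3, ?_⟩
        rw [hc, zero_iff]
        simp
      · obtain ⟨c, hc⟩ := hrep _ hs3
        refine ⟨Pi.single 1 1, hs1, ?_⟩
        rw [hc, zero_iff]
        simp
  have hne : Projectivization.mk k _ hs1 ≠ Projectivization.mk k _ hs3 := by
    intro h
    rw [Projectivization.mk_eq_mk_iff'] at h
    obtain ⟨c, hc⟩ := h
    have := congrFun hc 1
    simp at this
  change Nat.card ↥{P : ℙ k (Fin 4 → k) | ∃ q : Fin 4 → k, q ≠ 0 ∧ Zero (rr i) P.rep q} = 2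
  rw [hset, Nat.card_coe_set_eq, Set.ncard_pair hne]

end Pool.Agent.Y586.G2
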