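import Pool.Agent.Y586.G2.D8
import Pool.Agent.Y586.G2.D9
import Pool.Agent.W506.PM.Main

/-!
# Assembly
-/

universe u

namespace Pool.Agent.Y586.G2

open Pool.Agent.W506.PM (GAlg gx gy ggr IsConnectedGraded IsGSCA IsQuadratic IsASRegular
  PointClasses gx_mem gen1 opGr mem_opGr LeftKos growth_aux isQuadratic_of_pres)
open CategoryTheory Abelian
open scoped LinearAlgebra.Projectivization

variable {k : Type u} [Field k]

theorem main (k : Type u) [Field k] (i : k) (hi : i ^ 2 = -1) (h2 : (2 : k) ≠ 0)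
    (h5 : (5 : k) ≠ 0) :
    IsGSCA k mu1 (MM i) ∧ IsQuadratic (ggr k mu1 (MM i)) ∧ IsASRegular (ggr k mu1 (MM i)) 4 ∧
      Nat.card (PointClasses (ggr k mu1 (MM i))) = 2 := by
  have hP := isPres_AA i h2
  have hL := leftKos i h2 h5 hi
  have hR := rightKos i h2 h5 hi
  have hconn := conn_gA i h2
  have hgenL : ∀ n, ∀ a ∈ gA i (n + 1), ∃ f : Fin 4 → AA i, a = ∑ j, f j * gg i j :=
    fun n a ha => gen1 hconn _ (adjoin_AA i h2) (gx_mem _ _) n a ha
  have hgenR : ∀ n, ∀ a ∈ opGr (gA i) (n + 1), ∃ f : Fin 4 → (AA i)ᵐᵒᵖ,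
      a = ∑ j, f j * MulOpposite.op (gg i j) :=
    fun n a ha => gen1 hconn.op _ hP.op.gen
      (fun j => by rw [mem_opGr]; exact gx_mem _ _ j) n a ha
  have hgenL' : ∀ n, ∀ a ∈ gA i (n + 1), ∃ f : Fin 4 → AA i, a = ∑ j, gg i j * f j := by
    intro n a ha
    obtain ⟨f, hf⟩ := hgenR n (MulOpposite.op a) (by rw [mem_opGr]; exact ha)
    refine ⟨fun j => (f j).unop, ?_⟩
    have := congrArg MulOpposite.unop hf
    simpa only [Finset.unop_sum, MulOpposite.unop_mul, MulOpposite.unop_op] using this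
  have hgenR' : ∀ n, ∀ a ∈ opGr (gA i) (n + 1), ∃ f : Fin 4 → (AA i)ᵐᵒᵖ,
      a = ∑ j, MulOpposite.op (gg i j) * f j := by
    intro n a ha
    obtain ⟨f, hf⟩ := hgenL n a.unop (mem_opGr.1 ha)
    refine ⟨fun j => MulOpposite.op (f j), ?_⟩
    have := congrArg MulOpposite.op hf
    simpa only [Finset.op_sum, MulOpposite.op_mul, MulOpposite.op_unop] using this
  refine ⟨isGSCA_AA i h2, isQuadratic_of_pres _ hP (gx_mem _ _),
    ⟨hconn, ⟨27, fun n => ?_⟩, ?_, ?_⟩, ?_⟩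
  · rw [show Module.finrank k (ggr k mu1 (MM i) n) = (n + 3).choose 3 from finrank_gA i h2 n]
    exact growth_aux n
  · obtain ⟨e1, e2, e3⟩ := Pool.Agent.W45.PM.ext k (AA i) (gA i) (gg i) (mm i)
      (mm' i) hconn (gx_mem _ _) hgenL hgenL' hL hR
    exact ⟨Pool.Agent.W991.PMGLD.mainGLD k (AA i) (gA i) (gg i) (mm i) (mm' i)
      hconn (gx_mem _ _) (mm_mem i) (mm'_mem i) hgenL hL, e1, e2, e3⟩
  · have hx : ∀ j, MulOpposite.op (gg i j) ∈ opGr (gA i) 1 := fun j => by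
      rw [mem_opGr]; exact gx_mem _ _ j
    obtain ⟨e1, e2, e3⟩ := Pool.Agent.W45.PM.ext k (AA i)ᵐᵒᵖ (opGr (gA i))
      (fun j => MulOpposite.op (gg i j)) (fun s j => MulOpposite.op (mm' i s j))
      (fun s j => MulOpposite.op (mm i s j)) hconn.op hx hgenR hgenR' hR
      (Pool.Agent.W506.PM.LeftKos.map (RingEquiv.opOp (AA i)) hL)
    exact ⟨Pool.Agent.W991.PMGLD.mainGLD k (AA i)ᵐᵒᵖ (opGr (gA i)) _ _ _
      hconn.op hx (fun s j => by rw [mem_opGr]; exact mm'_mem i s j)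
      (fun s j => by rw [mem_opGr]; exact mm_mem i s j) hgenR hR, e1, e2, e3⟩
  · exact (Pool.Agent.W428.PMOD.taskPMOD k (AA i) (gA i) 4 6 (gg i) (rr i) hconn hP
      (gx_mem _ _) (fun p q q' hp hq hq' h h' => uniq h2 hi hp hq hq' h h')
      (fun p q hp _ h => ⟨p, hp, zero_symm i h⟩)).trans (card_pts h2 hi)

end Pool.Agent.Y586.G2
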